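import Mathlib
import Pool.Agent.Helper952.Croft.Defs

/-! (B) almost-indicator lemma for MP_f884a2_an (helper991; variational proof after helper445). -/

open MeasureTheory Real Set Filter Topology

namespace Croft

namespace AI

lemma norm_pt_sq (θ p σ : ℝ) : ‖pt θ p σ‖ ^ 2 = p ^ 2 + σ ^ 2 := by
  unfold pt
  rw [norm_mul, Complex.norm_exp_ofReal_mul_I, one_mul, ← Complex.normSq_eq_norm_sq,
    Complex.normSq_add_mul_I]

lemma pt_hasDerivAt (θ p σ : ℝ) :
    HasDerivAt (fun σ : ℝ => pt θ p σ) (Complex.exp (θ * Complex.I) * Complex.I) σ := by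
  unfold pt
  have h1 : HasDerivAt (fun σ : ℝ => ((p : ℂ) + (σ : ℂ) * Complex.I)) (1 * Complex.I) σ := by
    exact ((Complex.ofRealCLM.hasDerivAt (x := σ)).mul_const Complex.I).const_add (p : ℂ)
  have := h1.const_mul (Complex.exp (θ * Complex.I))
  simpa using this

lemma one_le_norm_pt (θ p σ : ℝ) (h : 1 ≤ |σ|) : 1 ≤ ‖pt θ p σ‖ := by
  have h1 := norm_pt_sq θ p σ
  have h2 : 1 ≤ σ ^ 2 := by rw [← sq_abs]; nlinarith [abs_nonneg σ]
  nlinarith [norm_nonneg (pt θ p σ), sq_nonneg p]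

lemma one_le_norm_pt' (θ p σ : ℝ) (h : 1 ≤ |p|) : 1 ≤ ‖pt θ p σ‖ := by
  have h1 := norm_pt_sq θ p σ
  have h2 : 1 ≤ p ^ 2 := by rw [← sq_abs]; nlinarith [abs_nonneg p]
  nlinarith [norm_nonneg (pt θ p σ), sq_nonneg σ]

lemma osc_piece (k k' : ℝ → ℝ) (hk : ∀ x, HasDerivAt k (k' x) x) (hk' : Continuous k')
    (M M' : ℝ) (hM : ∀ σ, |k σ| ≤ M) (hM' : ∀ σ, |k' σ| ≤ M')
    (a : ℝ) (ha : 0 < a) (ha1 : a ≤ 1) (n : ℝ) (hn : 0 < n) (c : ℝ) (x y : ℝ) (hxy : x ≤ y)
    (hxy1 : y - x ≤ 1) (h0 : ∀ σ ∈ Icc x y, a ≤ |σ|) :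
    |∫ σ in x..y, k σ * cos (n * (c + σ ^ 2))| ≤ (3 * M + M') / (2 * n * a ^ 2) := by
  have hM0 : 0 ≤ M := (abs_nonneg _).trans (hM 0)
  have hM0' : 0 ≤ M' := (abs_nonneg _).trans (hM' 0)
  have hne : ∀ σ ∈ Icc x y, σ ≠ 0 := by
    intro σ hσ h
    have := h0 σ hσ
    rw [h, abs_zero] at this
    linarith
  have hu : Set.uIcc x y = Icc x y := uIcc_of_le hxy
  have hd1 : ∀ σ ∈ Set.uIcc x y, HasDerivAt (fun σ => k σ / (2 * n * σ))
      (k' σ / (2 * n * σ) - k σ / (2 * n * σ ^ 2)) σ := by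
    intro σ hσ
    rw [hu] at hσ
    have hσ0 := hne σ hσ
    have h1 : HasDerivAt (fun σ : ℝ => 2 * n * σ) (2 * n) σ := by
      simpa using (hasDerivAt_id σ).const_mul (2 * n)
    have h2 := (hk σ).div h1 (by positivity)
    have h3 : (k' σ * (2 * n * σ) - k σ * (2 * n)) / (2 * n * σ) ^ 2 =
        k' σ / (2 * n * σ) - k σ / (2 * n * σ ^ 2) := by
      field_simp
    rw [h3] at h2
    exact h2
  have hd2 : ∀ σ ∈ Set.uIcc x y, HasDerivAt (fun σ => sin (n * (c + σ ^ 2)))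
      (2 * n * σ * cos (n * (c + σ ^ 2))) σ := by
    intro σ _
    have h1 : HasDerivAt (fun σ : ℝ => n * (c + σ ^ 2)) (n * (2 * σ)) σ := by
      have := (((hasDerivAt_id σ).pow 2).const_add c).const_mul n
      simpa using this
    convert h1.sin using 1
    ring
  have hcu : ContinuousOn (fun σ => k' σ / (2 * n * σ) - k σ / (2 * n * σ ^ 2)) (Set.uIcc x y) := by
    rw [hu]
    have hkc : Continuous k := continuous_iff_continuousAt.2 fun z => (hk z).continuousAt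
    apply ContinuousOn.sub
    · apply hk'.continuousOn.div (by fun_prop)
      intro z hz
      have := hne z hz
      positivity
    · apply hkc.continuousOn.div (by fun_prop)
      intro z hz
      have := hne z hz
      positivity
  have hcv : Continuous (fun σ => 2 * n * σ * cos (n * (c + σ ^ 2))) := by fun_prop
  have key := intervalIntegral.integral_mul_deriv_eq_deriv_mul hd1 hd2
    (hcu.intervalIntegrable) (hcv.intervalIntegrable _ _)
  have e1 : ∫ σ in x..y, k σ * cos (n * (c + σ ^ 2)) =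
      ∫ σ in x..y, k σ / (2 * n * σ) * (2 * n * σ * cos (n * (c + σ ^ 2))) := by
    apply intervalIntegral.integral_congr
    intro σ hσ
    rw [hu] at hσ
    have := hne σ hσ
    field_simp
  rw [e1, key]
  have hb : ∀ σ ∈ Icc x y, |k σ / (2 * n * σ) * sin (n * (c + σ ^ 2))| ≤ M / (2 * n * a ^ 2) := by
    intro σ hσ
    have h1 := h0 σ hσ
    rw [abs_mul, abs_div, abs_mul, abs_of_pos (by positivity : 0 < 2 * n)]
    have h3 : |k σ| / (2 * n * |σ|) ≤ M / (2 * n * a ^ 2) := by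
      apply div_le_div₀ hM0 (hM σ) (by positivity)
      have : a ^ 2 ≤ |σ| := by nlinarith
      nlinarith
    calc |k σ| / (2 * n * |σ|) * |sin (n * (c + σ ^ 2))| ≤ |k σ| / (2 * n * |σ|) * 1 := by
          apply mul_le_mul_of_nonneg_left (abs_sin_le_one _)
          have := abs_nonneg (k σ)
          have : 0 ≤ |σ| := abs_nonneg _
          positivity
      _ ≤ _ := by rw [mul_one]; exact h3
  have hi : ‖∫ σ in x..y, (k' σ / (2 * n * σ) - k σ / (2 * n * σ ^ 2)) * sin (n * (c + σ ^ 2))‖ ≤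
      (M + M') / (2 * n * a ^ 2) * |y - x| := by
    apply intervalIntegral.norm_integral_le_of_norm_le_const
    intro σ hσ
    rw [uIoc_of_le hxy] at hσ
    have hσ' : σ ∈ Icc x y := ⟨hσ.1.le, hσ.2⟩
    have h1 := h0 σ hσ'
    have h1' : a ^ 2 ≤ |σ| := by nlinarith
    have h1'' : a ^ 2 ≤ |σ| ^ 2 := by nlinarith
    rw [norm_mul]
    have h4 : ‖sin (n * (c + σ ^ 2))‖ ≤ 1 := abs_sin_le_one _
    have h5 : ‖k' σ / (2 * n * σ) - k σ / (2 * n * σ ^ 2)‖ ≤ (M + M') / (2 * n * a ^ 2) := by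
      rw [Real.norm_eq_abs]
      have h6 : |k' σ / (2 * n * σ)| ≤ M' / (2 * n * a ^ 2) := by
        rw [abs_div, abs_mul, abs_of_pos (by positivity : 0 < 2 * n)]
        apply div_le_div₀ hM0' (hM' σ) (by positivity)
        nlinarith
      have h7 : |k σ / (2 * n * σ ^ 2)| ≤ M / (2 * n * a ^ 2) := by
        rw [abs_div, abs_mul, abs_of_pos (by positivity : 0 < 2 * n), abs_pow]
        apply div_le_div₀ hM0 (hM σ) (by positivity)
        nlinarith
      calc _ ≤ |k' σ / (2 * n * σ)| + |k σ / (2 * n * σ ^ 2)| := abs_sub _ _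
        _ ≤ M' / (2 * n * a ^ 2) + M / (2 * n * a ^ 2) := by linarith
        _ = _ := by ring
    calc _ ≤ (M + M') / (2 * n * a ^ 2) * 1 := by
          apply mul_le_mul h5 h4 (norm_nonneg _) (by positivity)
      _ = _ := mul_one _
  have hyx : |y - x| ≤ 1 := by rw [abs_of_nonneg (by linarith)]; exact hxy1
  have hi' : |∫ σ in x..y, (k' σ / (2 * n * σ) - k σ / (2 * n * σ ^ 2)) * sin (n * (c + σ ^ 2))| ≤
      (M + M') / (2 * n * a ^ 2) := by
    refine hi.trans ?_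
    have : 0 ≤ (M + M') / (2 * n * a ^ 2) := by positivity
    nlinarith
  have hx := hb x ⟨le_rfl, hxy⟩
  have hy := hb y ⟨hxy, le_rfl⟩
  calc _ ≤ |k y / (2 * n * y) * sin (n * (c + y ^ 2)) - k x / (2 * n * x) * sin (n * (c + x ^ 2))| +
        |∫ σ in x..y, (k' σ / (2 * n * σ) - k σ / (2 * n * σ ^ 2)) * sin (n * (c + σ ^ 2))| := abs_sub _ _
    _ ≤ (|k y / (2 * n * y) * sin (n * (c + y ^ 2))| + |k x / (2 * n * x) * sin (n * (c + x ^ 2))|) +
        (M + M') / (2 * n * a ^ 2) := add_le_add (abs_sub _ _) hi'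
    _ ≤ (M / (2 * n * a ^ 2) + M / (2 * n * a ^ 2)) + (M + M') / (2 * n * a ^ 2) := by linarith
    _ = _ := by ring


lemma osc_line (k k' : ℝ → ℝ) (hk : ∀ x, HasDerivAt k (k' x) x) (hk' : Continuous k')
    (M M' : ℝ) (hM : ∀ σ, |k σ| ≤ M) (hM' : ∀ σ, |k' σ| ≤ M')
    (hs : ∀ σ, 1 ≤ |σ| → k σ = 0)
    (a : ℝ) (ha : 0 < a) (ha1 : a ≤ 1) (n : ℝ) (hn : 0 < n) (c : ℝ) :
    |∫ σ : ℝ, k σ * cos (n * (c + σ ^ 2))| ≤ 2 * a * M + (3 * M + M') / (n * a ^ 2) := by
  have hkc : Continuous k := continuous_iff_continuousAt.2 fun z => (hk z).continuousAt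
  have hc : Continuous (fun σ => k σ * cos (n * (c + σ ^ 2))) := by fun_prop
  have hM0 : 0 ≤ M := (abs_nonneg _).trans (hM 0)
  have e0 : ∫ σ : ℝ, k σ * cos (n * (c + σ ^ 2)) =
      ∫ σ in (-1 : ℝ)..1, k σ * cos (n * (c + σ ^ 2)) := by
    rw [intervalIntegral.integral_of_le (by norm_num)]
    symm
    apply setIntegral_eq_integral_of_forall_compl_eq_zero
    intro σ hσ
    have : 1 ≤ |σ| := by
      by_contra hcon
      push Not at hcon
      rw [abs_lt] at hcon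
      exact hσ ⟨hcon.1, hcon.2.le⟩
    rw [hs σ this, zero_mul]
  have hii : ∀ x y : ℝ, IntervalIntegrable (fun σ => k σ * cos (n * (c + σ ^ 2))) volume x y :=
    fun x y => hc.intervalIntegrable _ _
  have e1 := intervalIntegral.integral_add_adjacent_intervals (hii (-1) (-a)) (hii (-a) a)
  have e2 := intervalIntegral.integral_add_adjacent_intervals (hii (-1) a) (hii a 1)
  rw [e0, ← e2, ← e1]
  have b1 := osc_piece k k' hk hk' M M' hM hM' a ha ha1 n hn c (-1) (-a) (by linarith) (by linarith)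
    (by
      intro σ hσ
      rw [abs_of_neg (by linarith [hσ.2])]
      linarith [hσ.2])
  have b3 := osc_piece k k' hk hk' M M' hM hM' a ha ha1 n hn c a 1 (by linarith) (by linarith)
    (by
      intro σ hσ
      rw [abs_of_pos (by linarith [hσ.1])]
      linarith [hσ.1])
  have b2 : ‖∫ σ in (-a)..a, k σ * cos (n * (c + σ ^ 2))‖ ≤ M * |a - (-a)| := by
    apply intervalIntegral.norm_integral_le_of_norm_le_const
    intro σ _
    rw [norm_mul]
    calc ‖k σ‖ * ‖cos (n * (c + σ ^ 2))‖ ≤ M * 1 :=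
          mul_le_mul (hM σ) (abs_cos_le_one _) (norm_nonneg _) hM0
      _ = M := mul_one _
  rw [Real.norm_eq_abs, abs_of_nonneg (by linarith : 0 ≤ a - (-a))] at b2
  have e3 : (3 * M + M') / (n * a ^ 2) = (3 * M + M') / (2 * n * a ^ 2) + (3 * M + M') / (2 * n * a ^ 2) := by
    field_simp
    ring
  rw [e3]
  calc _ ≤ |(∫ σ in (-1)..(-a), k σ * cos (n * (c + σ ^ 2))) + ∫ σ in (-a)..a, k σ * cos (n * (c + σ ^ 2))| +
        |∫ σ in a..1, k σ * cos (n * (c + σ ^ 2))| := abs_add_le _ _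
    _ ≤ (|∫ σ in (-1)..(-a), k σ * cos (n * (c + σ ^ 2))| + |∫ σ in (-a)..a, k σ * cos (n * (c + σ ^ 2))|) +
        |∫ σ in a..1, k σ * cos (n * (c + σ ^ 2))| := by gcongr; exact abs_add_le _ _
    _ ≤ _ := by linarith

/-- `C^1` and zero outside the open unit disc -/
structure Supp1 (G : ℂ → ℝ) : Prop where
  c1 : ContDiff ℝ 1 G
  supp : ∀ z, 1 ≤ ‖z‖ → G z = 0

lemma Supp1.hcs {G : ℂ → ℝ} (h : Supp1 G) : HasCompactSupport G := by
  apply HasCompactSupport.of_support_subset_isCompact (isCompact_closedBall (0 : ℂ) 1)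
  intro z hz
  rw [mem_closedBall_zero_iff]
  by_contra hcon
  exact hz (h.supp z (le_of_not_ge hcon))

lemma Supp1.bdd {G : ℂ → ℝ} (h : Supp1 G) : ∃ M, ∀ z, |G z| ≤ M := by
  obtain ⟨C, hC⟩ := h.hcs.exists_bound_of_continuous h.c1.continuous
  exact ⟨C, hC⟩

lemma Supp1.bdd' {G : ℂ → ℝ} (h : Supp1 G) : ∃ M, ∀ z, ‖fderiv ℝ G z‖ ≤ M := by
  have h1 : HasCompactSupport (fderiv ℝ G) := h.hcs.fderiv ℝ
  have h2 : Continuous (fderiv ℝ G) := h.c1.continuous_fderiv (by norm_num)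
  exact h1.exists_bound_of_continuous h2

lemma osc_rad {G : ℂ → ℝ} (h : Supp1 G) (ε : ℝ) (hε : 0 < ε) :
    ∃ N : ℝ, ∀ n ≥ N, ∀ l, |Rad (fun z => G z * cos (n * ‖z‖ ^ 2)) l| ≤ ε := by
  obtain ⟨M, hM⟩ := h.bdd
  obtain ⟨M', hM'⟩ := h.bdd'
  have hM0 : 0 ≤ M := (abs_nonneg _).trans (hM 0)
  have hM0' : 0 ≤ M' := (norm_nonneg _).trans (hM' 0)
  obtain ⟨a, ha, ha1, ha2⟩ : ∃ a : ℝ, 0 < a ∧ a ≤ 1 ∧ 2 * a * M ≤ ε / 2 := by
    refine ⟨min 1 (ε / (4 * (M + 1))), by positivity, min_le_left _ _, ?_⟩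
    have h1 : min 1 (ε / (4 * (M + 1))) ≤ ε / (4 * (M + 1)) := min_le_right _ _
    have h2 : 2 * min 1 (ε / (4 * (M + 1))) * M ≤ 2 * (ε / (4 * (M + 1))) * M := by gcongr
    refine h2.trans ?_
    have : 2 * (ε / (4 * (M + 1))) * M = ε / 2 * (M / (M + 1)) := by field_simp; ring
    rw [this]
    have : M / (M + 1) ≤ 1 := by rw [div_le_one (by linarith)]; linarith
    nlinarith
  refine ⟨max 1 (2 * (3 * M + M') / (a ^ 2 * ε)), ?_⟩
  intro n hn l
  have hn1 : 1 ≤ n := (le_max_left _ _).trans hn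
  have hn2 : 2 * (3 * M + M') / (a ^ 2 * ε) ≤ n := (le_max_right _ _).trans hn
  have e0 : Rad (fun z => G z * cos (n * ‖z‖ ^ 2)) l =
      ∫ σ : ℝ, G (pt l.1 l.2 σ) * cos (n * (l.2 ^ 2 + σ ^ 2)) := by
    unfold Rad
    congr 1
    ext σ
    show G (pt l.1 l.2 σ) * cos (n * ‖pt l.1 l.2 σ‖ ^ 2) = _
    rw [norm_pt_sq]
  rw [e0]
  have hd : ∀ σ, HasDerivAt (fun σ => G (pt l.1 l.2 σ))
      (fderiv ℝ G (pt l.1 l.2 σ) (Complex.exp (l.1 * Complex.I) * Complex.I)) σ := by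
    intro σ
    have h1 : HasFDerivAt G (fderiv ℝ G (pt l.1 l.2 σ)) (pt l.1 l.2 σ) :=
      (h.c1.differentiable (by norm_num)).differentiableAt.hasFDerivAt
    exact h1.comp_hasDerivAt σ (pt_hasDerivAt l.1 l.2 σ)
  have hpc : Continuous (fun σ => pt l.1 l.2 σ) :=
    continuous_iff_continuousAt.2 fun z => (pt_hasDerivAt l.1 l.2 z).continuousAt
  have hcd : Continuous (fun σ => fderiv ℝ G (pt l.1 l.2 σ) (Complex.exp (l.1 * Complex.I) * Complex.I)) := by
    have h2 : Continuous (fderiv ℝ G) := h.c1.continuous_fderiv (by norm_num)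
    exact (h2.comp hpc).clm_apply continuous_const
  have hb := osc_line _ _ hd hcd M M' (fun σ => hM _) (by
      intro σ
      have h3 := (fderiv ℝ G (pt l.1 l.2 σ)).le_opNorm (Complex.exp (l.1 * Complex.I) * Complex.I)
      rw [norm_mul, Complex.norm_exp_ofReal_mul_I, Complex.norm_I, mul_one, mul_one] at h3
      exact h3.trans (hM' _))
    (fun σ hσ => h.supp _ (one_le_norm_pt _ _ _ hσ)) a ha ha1 n (by linarith) (l.2 ^ 2)
  refine hb.trans ?_
  have h4 : (3 * M + M') / (n * a ^ 2) ≤ ε / 2 := by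
    rw [div_le_iff₀ (by positivity)]
    rw [div_le_iff₀ (by positivity)] at hn2
    linarith
  linarith


lemma integral_eq_rad {F : ℂ → ℝ} (hF : Integrable F) : ∫ z, F z = ∫ p : ℝ, Rad F (0, p) := by
  have hmp := Complex.volume_preserving_equiv_real_prod.symm
  have h1 := hmp.integral_comp' F
  rw [← h1]
  have hint : Integrable (fun q : ℝ × ℝ => F (Complex.measurableEquivRealProd.symm q)) := by
    exact (hmp.integrable_comp_emb (Complex.measurableEquivRealProd.symm.measurableEmbedding)).2 hF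
  rw [Measure.volume_eq_prod] at hint ⊢
  rw [integral_prod _ hint]
  congr 1
  ext p
  unfold Rad
  congr 1
  ext σ
  congr 1
  unfold pt
  apply Complex.ext <;> simp

lemma rad_abs_le {F : ℂ → ℝ} (hF : Integrable F) (hs : ∀ z, 1 ≤ ‖z‖ → F z = 0) (c : ℝ)
    (h : ∀ l, |Rad F l| ≤ c) : |∫ z, F z| ≤ 2 * c := by
  rw [integral_eq_rad hF]
  have hz : ∀ p : ℝ, p ∉ Icc (-1 : ℝ) 1 → Rad F (0, p) = 0 := by
    intro p hp
    have hp1 : 1 ≤ |p| := by
      by_contra hcon
      push Not at hcon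
      rw [abs_lt] at hcon
      exact hp ⟨hcon.1.le, hcon.2.le⟩
    unfold Rad
    have : ∀ σ : ℝ, F (pt (0, p).1 (0, p).2 σ) = 0 := fun σ => hs _ (one_le_norm_pt' _ _ _ hp1)
    simp only [this]
    simp
  rw [← setIntegral_eq_integral_of_forall_compl_eq_zero (s := Icc (-1 : ℝ) 1) hz]
  have := norm_setIntegral_le_of_norm_le_const (μ := volume) (s := Icc (-1 : ℝ) 1) (C := c)
    (f := fun p => Rad F (0, p)) (by simp) (fun p _ => h (0, p))
  rw [Real.norm_eq_abs] at this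
  refine this.trans (le_of_eq ?_)
  simp only [Measure.real, Real.volume_Icc]
  rw [ENNReal.toReal_ofReal (by norm_num)]
  ring

lemma Supp1.integrable {G : ℂ → ℝ} (h : Supp1 G) : Integrable G :=
  h.c1.continuous.integrable_of_hasCompactSupport h.hcs

lemma Supp1.mul_cos {G : ℂ → ℝ} (h : Supp1 G) (n : ℝ) : Supp1 (fun z => G z * cos (n * ‖z‖ ^ 2)) := by
  refine ⟨?_, fun z hz => by rw [h.supp z hz, zero_mul]⟩
  have h1 : ContDiff ℝ 1 (fun z : ℂ => ‖z‖ ^ 2) := (contDiff_norm_sq ℝ).of_le (by exact_mod_cast le_top)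
  exact h.c1.mul (Real.contDiff_cos.comp (contDiff_const.mul h1))

lemma osc_int {G : ℂ → ℝ} (h : Supp1 G) (ε : ℝ) (hε : 0 < ε) :
    ∃ N : ℝ, ∀ n ≥ N, |∫ z, G z * cos (n * ‖z‖ ^ 2)| ≤ ε := by
  obtain ⟨N, hN⟩ := osc_rad h (ε / 2) (by linarith)
  refine ⟨N, fun n hn => ?_⟩
  have := rad_abs_le (h.mul_cos n).integrable (h.mul_cos n).supp (ε / 2) (hN n hn)
  linarith


lemma _root_.Croft.Nice.ai_supp1 {h : ℂ → ℝ} (hh : Nice h) : Supp1 h := ⟨hh.c1, hh.supp⟩

lemma _root_.Croft.Nice.ai_supp1_g {h : ℂ → ℝ} (hh : Nice h) : Supp1 (fun z => h z * (1 - h z)) :=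
  ⟨hh.c1.mul (contDiff_const.sub hh.c1), fun z hz => by rw [hh.supp z hz, zero_mul]⟩

lemma Supp1.mul' {G H : ℂ → ℝ} (h : Supp1 G) (h' : ContDiff ℝ 1 H) : Supp1 (fun z => G z * H z) :=
  ⟨h.c1.mul h', fun z hz => by rw [h.supp z hz, zero_mul]⟩

lemma rad_integrable {G : ℂ → ℝ} (h : Supp1 G) (l : ℝ × ℝ) :
    Integrable (fun σ : ℝ => G (pt l.1 l.2 σ)) := by
  have hpc : Continuous (fun σ => pt l.1 l.2 σ) :=
    continuous_iff_continuousAt.2 fun z => (pt_hasDerivAt l.1 l.2 z).continuousAt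
  apply (h.c1.continuous.comp hpc).integrable_of_hasCompactSupport
  apply HasCompactSupport.of_support_subset_isCompact (isCompact_Icc (a := (-1 : ℝ)) (b := 1))
  intro σ hσ
  by_contra hcon
  apply hσ
  apply h.supp _ (one_le_norm_pt _ _ _ _)
  by_contra h2
  push Not at h2
  rw [abs_lt] at h2
  exact hcon ⟨h2.1.le, h2.2.le⟩

/-- adding the oscillation `h (1 - h) cos (n |z|^2)` -/
noncomputable def osc (h : ℂ → ℝ) (n : ℝ) (z : ℂ) : ℝ := h z + (h z * (1 - h z)) * cos (n * ‖z‖ ^ 2)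

lemma _root_.Croft.Nice.ai_osc {h : ℂ → ℝ} (hh : Nice h) (n : ℝ) : Nice (osc h n) := by
  have h1 := hh.ai_supp1_g.mul_cos n
  refine ⟨hh.c1.add h1.c1, ?_, ?_, ?_⟩
  · intro z
    unfold Croft.AI.osc
    have := hh.nonneg z
    have := hh.le_one z
    have := neg_one_le_cos (n * ‖z‖ ^ 2)
    have h3 : 0 ≤ h z * (1 - h z) := mul_nonneg (hh.nonneg z) (by linarith)
    nlinarith
  · intro z
    unfold Croft.AI.osc
    have := hh.nonneg z
    have := hh.le_one z
    have := cos_le_one (n * ‖z‖ ^ 2)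
    have h3 : 0 ≤ h z * (1 - h z) := mul_nonneg (hh.nonneg z) (by linarith)
    nlinarith
  · intro z hz
    unfold Croft.AI.osc
    rw [hh.supp z hz]
    ring

/-- volume of the disc -/
noncomputable def V : ℝ := (volume : Measure ℂ).real (Metric.closedBall 0 1)

lemma V_pos : 0 < V := by
  unfold V Measure.real
  apply ENNReal.toReal_pos
  · exact (Metric.measure_closedBall_pos volume _ one_pos).ne'
  · exact (isCompact_closedBall (0 : ℂ) 1).measure_lt_top.ne

lemma int_le_V {G : ℂ → ℝ} (h : Supp1 G) (c : ℝ) (h1 : ∀ z, G z ≤ c) (hc : 0 ≤ c) : ∫ z, G z ≤ c * V := by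
  have hz : ∀ z : ℂ, z ∉ Metric.closedBall (0 : ℂ) 1 → G z = 0 := by
    intro z hz
    rw [mem_closedBall_zero_iff] at hz
    exact h.supp z (le_of_not_ge hz)
  rw [← setIntegral_eq_integral_of_forall_compl_eq_zero hz]
  have hfin : volume (Metric.closedBall (0 : ℂ) 1) ≠ ⊤ := (isCompact_closedBall (0 : ℂ) 1).measure_lt_top.ne
  calc ∫ z in Metric.closedBall (0 : ℂ) 1, G z ≤ ∫ z in Metric.closedBall (0 : ℂ) 1, c := by
        apply setIntegral_mono h.integrable.integrableOn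
        · exact integrableOn_const hfin
        · exact h1
    _ = c * V := by
        rw [setIntegral_const]
        unfold V
        rw [smul_eq_mul, mul_comm]

lemma sq_lower {g : ℂ → ℝ} (h : Supp1 g) (ε : ℝ) (hε : 0 < ε) (hg : ε < ∫ z, g z) :
    ε ^ 2 / V ≤ ∫ z, g z ^ 2 := by
  have hV := V_pos
  have h2 : Supp1 (fun z => g z ^ 2) := ⟨h.c1.pow 2, fun z hz => by rw [h.supp z hz]; ring⟩
  set τ : ℝ := ε / (2 * V) with hτ
  have hτ0 : 0 < τ := by positivity
  have h3 : Supp1 (fun z => g z - g z ^ 2 / (4 * τ)) :=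
    ⟨h.c1.sub (h2.c1.div_const _), fun z hz => by rw [h.supp z hz]; ring⟩
  have h4 := int_le_V h3 τ (by
    intro z
    have : 0 ≤ (g z - 2 * τ) ^ 2 / (4 * τ) := by positivity
    have e : (g z - 2 * τ) ^ 2 / (4 * τ) = g z ^ 2 / (4 * τ) - g z + τ := by field_simp; ring
    linarith) hτ0.le
  rw [integral_sub h.integrable (h2.integrable.div_const _), integral_div] at h4
  have e1 : τ * V = ε / 2 := by rw [hτ]; field_simp
  rw [e1] at h4
  have h5 : ε / 2 ≤ (∫ z, g z ^ 2) / (4 * τ) := by linarith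
  rw [le_div_iff₀ (by positivity)] at h5
  have e2 : ε / 2 * (4 * τ) = ε ^ 2 / V := by rw [hτ]; field_simp; norm_num
  linarith

lemma sq_supp1 {g : ℂ → ℝ} (h : Supp1 g) : Supp1 (fun z => g z ^ 2) :=
  ⟨h.c1.pow 2, fun z hz => by rw [h.supp z hz]; ring⟩

end AI

open AI in
theorem almost_indicator (h : ℂ → ℝ) (hh : Nice h) (ε : ℝ) (hε : 0 < ε) :
    ∃ h', Nice h' ∧ (∀ l, |Rad h' l - Rad h l| ≤ ε) ∧ J h' ≤ ε ∧ ∫ z, (h' z - h z) ^ 2 ≤ J h + ε := by
  have hV := V_pos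
  set ε' : ℝ := ε / 3 with hε'
  have hε'0 : 0 < ε' := by positivity
  set Adm : Set (ℂ → ℝ) := {h' | Nice h' ∧ (∃ r < ε, ∀ l, |Rad h' l - Rad h l| ≤ r) ∧
    |∫ z, (h' z - h z)| < ε' ∧ |∫ z, (h' z - h z) * h z| < ε'} with hAdm
  set S : Set ℝ := (fun h' : ℂ → ℝ => ∫ z, h' z ^ 2) '' Adm with hS
  have hne : S.Nonempty := by
    refine ⟨∫ z, h z ^ 2, h, ⟨hh, ⟨0, hε, fun l => by simp⟩, by simp [hε'0], by simp [hε'0]⟩, rfl⟩
  have hbdd : BddAbove S := by
    refine ⟨1 * V, ?_⟩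
    rintro _ ⟨h', ⟨hn, -, -, -⟩, rfl⟩
    apply int_le_V (sq_supp1 hn.ai_supp1) 1 _ zero_le_one
    intro z
    have h1 := hn.nonneg z
    have h2 := hn.le_one z
    show h' z ^ 2 ≤ 1
    nlinarith
  set κ : ℝ := ε ^ 2 / (4 * V) with hκ
  have hκ0 : 0 < κ := by positivity
  obtain ⟨_, ⟨h', ⟨hn, ⟨r, hr, hrl⟩, hA1, hA2⟩, rfl⟩, hlt⟩ := exists_lt_of_lt_csSup hne
    (show sSup S - κ < sSup S by linarith)
  simp only at hlt
  have hI : Integrable h := hh.ai_supp1.integrable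
  have hI' : Integrable h' := hn.ai_supp1.integrable
  have hJ : J h' ≤ ε := by
    by_contra hcon
    push Not at hcon
    set g : ℂ → ℝ := fun z => h' z * (1 - h' z) with hg
    have hgS : Supp1 g := hn.ai_supp1_g
    have hg2 := sq_lower hgS ε hε hcon
    have hg2S := sq_supp1 hgS
    have hghS : Supp1 (fun z => g z * h' z) := hgS.mul' hn.c1
    have hgh0S : Supp1 (fun z => g z * h z) := hgS.mul' hh.c1
    set η : ℝ := ε ^ 2 / (10 * V) with hη
    have hη0 : 0 < η := by positivity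
    obtain ⟨N1', hN1'⟩ := osc_rad hgS ((ε - r) / 2) (by linarith)
    obtain ⟨N2, hN2⟩ := osc_int hgS ((ε' - |∫ z, (h' z - h z)|) / 2) (by linarith)
    obtain ⟨N3, hN3⟩ := osc_int hgh0S ((ε' - |∫ z, (h' z - h z) * h z|) / 2) (by linarith)
    obtain ⟨N4, hN4⟩ := osc_int hghS η hη0
    obtain ⟨N5, hN5⟩ := osc_int hg2S η hη0
    set n : ℝ := max 0 (max N1' (max N2 (max N3 (max N4 N5)))) with hn'
    have hn0 : 0 ≤ n := le_max_left _ _
    have hm : max N1' (max N2 (max N3 (max N4 N5))) ≤ n := le_max_right _ _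
    simp only [max_le_iff] at hm
    obtain ⟨m1, m2, m3, m4, m5⟩ := hm
    have c1 := hN1' n m1
    have c2 := hN2 n m2
    have c3 := hN3 n m3
    have c4 := hN4 n m4
    have c5 := hN5 (2 * n) (by linarith)
    have hgc := hgS.mul_cos n
    have hadm : osc h' n ∈ Adm := by
      refine ⟨hn.ai_osc n, ⟨(ε + r) / 2, by linarith, ?_⟩, ?_, ?_⟩
      · intro l
        have e1 : Rad (osc h' n) l = Rad h' l + Rad (fun z => g z * cos (n * ‖z‖ ^ 2)) l := by
          unfold Rad osc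
          rw [integral_add (rad_integrable hn.ai_supp1 l) (rad_integrable hgc l)]
        rw [e1]
        have h1 := hrl l
        have h2 := c1 l
        calc |Rad h' l + Rad (fun z => g z * cos (n * ‖z‖ ^ 2)) l - Rad h l|
            = |(Rad h' l - Rad h l) + Rad (fun z => g z * cos (n * ‖z‖ ^ 2)) l| := by congr 1; ring
          _ ≤ |Rad h' l - Rad h l| + |Rad (fun z => g z * cos (n * ‖z‖ ^ 2)) l| := abs_add_le _ _
          _ ≤ r + (ε - r) / 2 := by linarith
          _ = (ε + r) / 2 := by ring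
      · have e1 : ∫ z, (osc h' n z - h z) = (∫ z, (h' z - h z)) + ∫ z, g z * cos (n * ‖z‖ ^ 2) := by
          rw [← integral_add (f := fun z => h' z - h z) (hI'.sub hI) hgc.integrable]
          congr 1
          ext z
          unfold osc
          simp only [hg]
          ring
        rw [e1]
        calc |(∫ z, (h' z - h z)) + ∫ z, g z * cos (n * ‖z‖ ^ 2)| ≤ |∫ z, (h' z - h z)| + |∫ z, g z * cos (n * ‖z‖ ^ 2)| := abs_add_le _ _
          _ < ε' := by linarith
      · have e1 : ∫ z, (osc h' n z - h z) * h z = (∫ z, (h' z - h z) * h z) + ∫ z, (g z * h z) * cos (n * ‖z‖ ^ 2) := by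
          rw [← integral_add]
          · congr 1
            ext z
            unfold osc
            simp only [hg]
            ring
          · exact (Supp1.mul' (G := fun z => h' z - h z) ⟨hn.c1.sub hh.c1, fun z hz => by
              rw [hn.supp z hz, hh.supp z hz]; ring⟩ hh.c1).integrable
          · exact (hgh0S.mul_cos n).integrable
        rw [e1]
        calc |(∫ z, (h' z - h z) * h z) + ∫ z, (g z * h z) * cos (n * ‖z‖ ^ 2)| ≤ |∫ z, (h' z - h z) * h z| + |∫ z, (g z * h z) * cos (n * ‖z‖ ^ 2)| := abs_add_le _ _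
          _ < ε' := by linarith
    have hle : ∫ z, (osc h' n z) ^ 2 ≤ sSup S := le_csSup hbdd ⟨_, hadm, rfl⟩
    have e2 : ∫ z, (osc h' n z) ^ 2 = (∫ z, h' z ^ 2) + 2 * (∫ z, (g z * h' z) * cos (n * ‖z‖ ^ 2)) +
        (1 / 2) * (∫ z, g z ^ 2) + (1 / 2) * ∫ z, g z ^ 2 * cos (2 * n * ‖z‖ ^ 2) := by
      rw [← integral_const_mul, ← integral_const_mul, ← integral_const_mul, ← integral_add,
        ← integral_add, ← integral_add]
      · congr 1
        ext z
        unfold osc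
        have : cos (2 * n * ‖z‖ ^ 2) = 2 * cos (n * ‖z‖ ^ 2) ^ 2 - 1 := by
          rw [← cos_two_mul]
          congr 1
          ring
        rw [this]
        simp only [hg]
        ring
      · exact ((sq_supp1 hn.ai_supp1).integrable.add ((hghS.mul_cos n).integrable.const_mul 2)).add
          (hg2S.integrable.const_mul _)
      · exact (hg2S.mul_cos (2 * n)).integrable.const_mul _
      · exact ((sq_supp1 hn.ai_supp1).integrable.add ((hghS.mul_cos n).integrable.const_mul 2))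
      · exact (hg2S.integrable.const_mul _)
      · exact (sq_supp1 hn.ai_supp1).integrable
      · exact (hghS.mul_cos n).integrable.const_mul 2
    have hv1 : κ = 10 / 4 * η := by rw [hκ, hη]; field_simp
    have hv2 : ε ^ 2 / V = 10 * η := by rw [hη]; field_simp
    rw [hv2] at hg2
    have d4 := neg_abs_le (∫ z, (g z * h' z) * cos (n * ‖z‖ ^ 2))
    have d5 := neg_abs_le (∫ z, g z ^ 2 * cos (2 * n * ‖z‖ ^ 2))
    rw [e2] at hle
    linarith
  refine ⟨h', hn, fun l => (hrl l).trans hr.le, hJ, ?_⟩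
  have s1 := sq_supp1 hn.ai_supp1
  have s2 := sq_supp1 hh.ai_supp1
  have s3 : Supp1 (fun z => (h' z - h z) * h z) := Supp1.mul' (G := fun z => h' z - h z) ⟨hn.c1.sub hh.c1, fun z hz => by
              rw [hn.supp z hz, hh.supp z hz]; ring⟩ hh.c1
  have e1 : ∫ z, (h' z - h z) ^ 2 = (∫ z, h' z ^ 2) - (∫ z, h z ^ 2) - 2 * ∫ z, (h' z - h z) * h z := by
    rw [← integral_const_mul, ← integral_sub s1.integrable s2.integrable, ← integral_sub
      (f := fun z => h' z ^ 2 - h z ^ 2) (s1.integrable.sub s2.integrable)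
      (s3.integrable.const_mul 2)]
    congr 1
    ext z
    ring
  have e2 : J h = (∫ z, h z) - ∫ z, h z ^ 2 := by
    unfold J
    rw [← integral_sub hI s2.integrable]
    congr 1
    ext z
    ring
  have e3 : ∫ z, h' z ^ 2 ≤ ∫ z, h' z := by
    apply integral_mono s1.integrable hI'
    intro z
    have h1 := hn.nonneg z
    have h2 := hn.le_one z
    show h' z ^ 2 ≤ h' z
    nlinarith
  have e4 : ∫ z, (h' z - h z) = (∫ z, h' z) - ∫ z, h z := integral_sub hI' hI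
  have d1 := le_abs_self (∫ z, (h' z - h z))
  have d2 := neg_abs_le (∫ z, (h' z - h z) * h z)
  rw [e1, e2]
  linarith

end Croft
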