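import Mathlib
import Pool.Agent.Helper952.Croft.Defs
import Pool.Agent.Helper952.Croft.RadBasic
import Pool.Agent.Helper991.Croft.AlmostIndicator

/-! (B2) line-wise uniform, localised almost-indicator lemma for MP_f884a2_an (helper991). -/

open MeasureTheory Real Set Filter Topology

namespace Croft

namespace AI2

open AI

lemma _root_.Croft.AI.Supp1.add' {F G : ℂ → ℝ} (hF : Supp1 F) (hG : Supp1 G) : Supp1 (fun z => F z + G z) :=
  ⟨hF.c1.add hG.c1, fun z hz => by rw [hF.supp z hz, hG.supp z hz, add_zero]⟩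

lemma _root_.Croft.AI.Supp1.sub' {F G : ℂ → ℝ} (hF : Supp1 F) (hG : Supp1 G) : Supp1 (fun z => F z - G z) :=
  ⟨hF.c1.sub hG.c1, fun z hz => by rw [hF.supp z hz, hG.supp z hz, sub_zero]⟩

lemma rad_add {F G : ℂ → ℝ} (hF : Supp1 F) (hG : Supp1 G) (l : ℝ × ℝ) :
    Rad (fun z => F z + G z) l = Rad F l + Rad G l :=
  integral_add (rad_integrable hF l) (rad_integrable hG l)

lemma rad_sub {F G : ℂ → ℝ} (hF : Supp1 F) (hG : Supp1 G) (l : ℝ × ℝ) :
    Rad (fun z => F z - G z) l = Rad F l - Rad G l :=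
  integral_sub (rad_integrable hF l) (rad_integrable hG l)

lemma rad_mono {F G : ℂ → ℝ} (hF : Supp1 F) (hG : Supp1 G) (h : ∀ z, F z ≤ G z) (l : ℝ × ℝ) :
    Rad F l ≤ Rad G l :=
  integral_mono (rad_integrable hF l) (rad_integrable hG l) (fun _ => h _)

lemma rad_le_const {F : ℂ → ℝ} (hF : Supp1 F) (c : ℝ) (h : ∀ z, F z ≤ c) (l : ℝ × ℝ) :
    Rad F l ≤ 2 * c := by
  rw [Rad_eq_interval F hF.supp]
  have h1 : ∫ σ in (-1:ℝ)..1, F (pt l.1 l.2 σ) ≤ ∫ σ in (-1:ℝ)..1, c := by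
    apply intervalIntegral.integral_mono_on (by norm_num)
    · exact line_intervalIntegrable F hF.c1.continuous l _ _
    · simp
    · intro x _; exact h _
  refine h1.trans (le_of_eq ?_)
  rw [intervalIntegral.integral_const, smul_eq_mul]
  norm_num

/-- localised oscillation step -/
noncomputable def stp (χ k : ℂ → ℝ) (n : ℝ) (z : ℂ) : ℝ :=
  k z + (χ z * (k z * (1 - k z))) * cos (n * ‖z‖ ^ 2)

lemma stp_nice {χ k : ℂ → ℝ} (hχ : ContDiff ℝ 1 χ) (h0 : ∀ z, 0 ≤ χ z) (h1 : ∀ z, χ z ≤ 1) (hk : Nice k)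
    (n : ℝ) : Nice (stp χ k n) := by
  have hg : Supp1 (fun z => χ z * (k z * (1 - k z))) := by
    refine ⟨hχ.mul hk.ai_supp1_g.c1, fun z hz => by rw [hk.supp z hz]; ring⟩
  have hgc := hg.mul_cos n
  have key : ∀ z, |χ z * (k z * (1 - k z)) * cos (n * ‖z‖ ^ 2)| ≤ k z * (1 - k z) := by
    intro z
    have a1 := hk.nonneg z
    have a2 := hk.le_one z
    have a3 : 0 ≤ k z * (1 - k z) := mul_nonneg a1 (by linarith)
    rw [abs_mul, abs_of_nonneg (mul_nonneg (h0 z) a3)]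
    calc χ z * (k z * (1 - k z)) * |cos (n * ‖z‖ ^ 2)| ≤ (1 * (k z * (1 - k z))) * 1 := by
          gcongr
          · exact h1 z
          · exact abs_cos_le_one _
      _ = _ := by ring
  refine ⟨hk.c1.add hgc.c1, ?_, ?_, ?_⟩
  · intro z
    unfold stp
    have a1 := hk.nonneg z
    have a2 := hk.le_one z
    have := (abs_le.1 (key z)).1
    nlinarith
  · intro z
    unfold stp
    have a1 := hk.nonneg z
    have a2 := hk.le_one z
    have := (abs_le.1 (key z)).2
    nlinarith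
  · intro z hz
    unfold stp
    rw [hk.supp z hz]
    ring

lemma cos_two_id (n : ℝ) (z : ℂ) : cos (n * ‖z‖ ^ 2) ^ 2 = (1 + cos (2 * n * ‖z‖ ^ 2)) / 2 := by
  have : 2 * n * ‖z‖ ^ 2 = 2 * (n * ‖z‖ ^ 2) := by ring
  rw [this, cos_two_mul]
  ring

lemma main_step {χ h k : ℂ → ℝ} (hχ : ContDiff ℝ 1 χ) (h0 : ∀ z, 0 ≤ χ z) (h1 : ∀ z, χ z ≤ 1)
    (hh : Nice h) (hk : Nice k) (η : ℝ) (hη : 0 < η) :
    ∃ n : ℝ, ∀ l,
      |Rad (stp χ k n) l - Rad k l| ≤ η ∧
      Rad (fun z => (stp χ k n z - h z) * (1 - 2 * h z)) l ≤ Rad (fun z => (k z - h z) * (1 - 2 * h z)) l + η ∧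
      Rad (fun z => (1 - χ z) * (stp χ k n z * (1 - stp χ k n z))) l ≤
        Rad (fun z => (1 - χ z) * (k z * (1 - k z))) l + η ∧
      Rad (fun z => stp χ k n z * (1 - stp χ k n z)) l ≤ Rad (fun z => k z * (1 - k z)) l -
        Rad (fun z => (χ z * (k z * (1 - k z))) ^ 2 / 2) l + η := by
  have hg : Supp1 (fun z => χ z * (k z * (1 - k z))) := by
    refine ⟨hχ.mul hk.ai_supp1_g.c1, fun z hz => by rw [hk.supp z hz]; ring⟩
  have cH : ContDiff ℝ 1 (fun z => 1 - 2 * h z) := contDiff_const.sub (contDiff_const.mul hh.c1)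
  have cK : ContDiff ℝ 1 (fun z => 1 - 2 * k z) := contDiff_const.sub (contDiff_const.mul hk.c1)
  have cχ : ContDiff ℝ 1 (fun z => 1 - χ z) := contDiff_const.sub hχ
  have g2 := hg.mul' cH
  have g3 := hg.mul' cK
  have g4 : Supp1 (fun z => (χ z * (k z * (1 - k z))) ^ 2 / 2) := by
    have := hg.mul' (hg.c1.div_const 2)
    refine ⟨?_, fun z hz => by rw [hk.supp z hz]; ring⟩
    convert this.c1 using 2
    ring
  have g5 := g3.mul' cχ
  have g6 := g4.mul' cχ
  obtain ⟨N1, hN1⟩ := osc_rad hg η hη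
  obtain ⟨N2, hN2⟩ := osc_rad g2 η hη
  obtain ⟨N3, hN3⟩ := osc_rad g3 (η / 2) (by linarith)
  obtain ⟨N4, hN4⟩ := osc_rad g4 (η / 2) (by linarith)
  obtain ⟨N5, hN5⟩ := osc_rad g5 (η / 2) (by linarith)
  obtain ⟨N6, hN6⟩ := osc_rad g6 (η / 2) (by linarith)
  set n : ℝ := max (max (max N1 N2) (max N3 N4)) (max (max N5 N6) 0) with hn
  have n0 : 0 ≤ n := (le_max_right _ _).trans (le_max_right _ _)
  have n1 : N1 ≤ n := ((le_max_left _ _).trans (le_max_left _ _)).trans (le_max_left _ _)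
  have n2 : N2 ≤ n := ((le_max_right _ _).trans (le_max_left _ _)).trans (le_max_left _ _)
  have n3 : N3 ≤ n := ((le_max_left _ _).trans (le_max_right _ _)).trans (le_max_left _ _)
  have n4 : N4 ≤ 2 * n := by
    have := ((le_max_right N3 N4).trans (le_max_right (max N1 N2) _)).trans (le_max_left _ (max (max N5 N6) 0))
    linarith
  have n5 : N5 ≤ n := ((le_max_left _ _).trans (le_max_left _ _)).trans (le_max_right _ _)
  have n6 : N6 ≤ 2 * n := by
    have := ((le_max_right N5 N6).trans (le_max_left _ 0)).trans (le_max_right (max (max N1 N2) (max N3 N4)) _)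
    linarith
  refine ⟨n, fun l => ⟨?_, ?_, ?_, ?_⟩⟩
  · have e : Rad (stp χ k n) l = Rad k l + Rad (fun z => (χ z * (k z * (1 - k z))) * cos (n * ‖z‖ ^ 2)) l :=
      rad_add hk.ai_supp1 (hg.mul_cos n) l
    rw [e, add_sub_cancel_left]
    exact hN1 n n1 l
  · have hkh : Supp1 (fun z => (k z - h z) * (1 - 2 * h z)) := (hk.ai_supp1.sub' hh.ai_supp1).mul' cH
    have e : Rad (fun z => (stp χ k n z - h z) * (1 - 2 * h z)) l =
        Rad (fun z => (k z - h z) * (1 - 2 * h z)) l +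
        Rad (fun z => ((χ z * (k z * (1 - k z))) * (1 - 2 * h z)) * cos (n * ‖z‖ ^ 2)) l := by
      rw [← rad_add hkh (g2.mul_cos n)]
      congr 1
      ext z
      unfold stp
      ring
    rw [e]
    have := (abs_le.1 (hN2 n n2 l)).2
    linarith
  · have hA : Supp1 (fun z => (k z * (1 - k z)) * (1 - χ z)) := hk.ai_supp1_g.mul' cχ
    have e : Rad (fun z => (1 - χ z) * (stp χ k n z * (1 - stp χ k n z))) l =
        ((Rad (fun z => (1 - χ z) * (k z * (1 - k z))) l +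
        Rad (fun z => (((χ z * (k z * (1 - k z))) * (1 - 2 * k z)) * (1 - χ z)) * cos (n * ‖z‖ ^ 2)) l) -
        Rad (fun z => ((χ z * (k z * (1 - k z))) ^ 2 / 2) * (1 - χ z)) l) -
        Rad (fun z => (((χ z * (k z * (1 - k z))) ^ 2 / 2) * (1 - χ z)) * cos (2 * n * ‖z‖ ^ 2)) l := by
      have hA' : (fun z => (1 - χ z) * (k z * (1 - k z))) = (fun z => (k z * (1 - k z)) * (1 - χ z)) := by
        ext z; ring
      rw [hA', ← rad_add hA (g5.mul_cos n), ← rad_sub (hA.add' (g5.mul_cos n)) g6,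
        ← rad_sub ((hA.add' (g5.mul_cos n)).sub' g6) (g6.mul_cos (2 * n))]
      congr 1
      ext z
      have := cos_two_id n z
      unfold stp
      have h2 : cos (2 * n * ‖z‖ ^ 2) = 2 * cos (n * ‖z‖ ^ 2) ^ 2 - 1 := by rw [this]; ring
      rw [h2]
      ring
    rw [e]
    have b1 := (abs_le.1 (hN5 n n5 l)).2
    have b2 := (abs_le.1 (hN6 (2 * n) n6 l)).1
    have b3 : 0 ≤ Rad (fun z => ((χ z * (k z * (1 - k z))) ^ 2 / 2) * (1 - χ z)) l := by
      apply integral_nonneg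
      intro σ
      have := h1 (pt l.1 l.2 σ)
      show 0 ≤ ((χ (pt l.1 l.2 σ) * (k (pt l.1 l.2 σ) * (1 - k (pt l.1 l.2 σ)))) ^ 2 / 2) * (1 - χ (pt l.1 l.2 σ))
      apply mul_nonneg (by positivity) (by linarith)
    linarith
  · have e : Rad (fun z => stp χ k n z * (1 - stp χ k n z)) l =
        ((Rad (fun z => k z * (1 - k z)) l +
        Rad (fun z => ((χ z * (k z * (1 - k z))) * (1 - 2 * k z)) * cos (n * ‖z‖ ^ 2)) l) -
        Rad (fun z => (χ z * (k z * (1 - k z))) ^ 2 / 2) l) -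
        Rad (fun z => ((χ z * (k z * (1 - k z))) ^ 2 / 2) * cos (2 * n * ‖z‖ ^ 2)) l := by
      have hA := hk.ai_supp1_g
      rw [← rad_add hA (g3.mul_cos n), ← rad_sub (hA.add' (g3.mul_cos n)) g4,
        ← rad_sub ((hA.add' (g3.mul_cos n)).sub' g4) (g4.mul_cos (2 * n))]
      congr 1
      ext z
      have := cos_two_id n z
      unfold stp
      have h2 : cos (2 * n * ‖z‖ ^ 2) = 2 * cos (n * ‖z‖ ^ 2) ^ 2 - 1 := by rw [this]; ring
      rw [h2]
      ring
    rw [e]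
    have b1 := (abs_le.1 (hN3 n n3 l)).2
    have b2 := (abs_le.1 (hN4 (2 * n) n4 l)).1
    linarith

lemma iter {χ h : ℂ → ℝ} (hχ : ContDiff ℝ 1 χ) (h0 : ∀ z, 0 ≤ χ z) (h1 : ∀ z, χ z ≤ 1)
    (hh : Nice h) (δ ω η : ℝ) (hδ : 0 < δ) (hδ1 : δ ≤ 1) (hη : 0 < η)
    (hW : ∀ l, Rad (fun z => (1 - χ z) * (h z * (1 - h z))) l ≤ ω) (hω : 0 ≤ ω) (N : ℕ) :
    ∃ k, Nice k ∧ (∀ z, χ z = 0 → k z = h z) ∧ ∀ l,
      |Rad k l - Rad h l| ≤ N * η ∧
      Rad (fun z => (k z - h z) * (1 - 2 * h z)) l ≤ N * η ∧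
      Rad (fun z => (1 - χ z) * (k z * (1 - k z))) l ≤ ω + N * η ∧
      Rad (fun z => k z * (1 - k z)) l ≤ (1 - δ) ^ N + (ω + N * η + δ + η / δ) := by
  induction N with
  | zero =>
    refine ⟨h, hh, fun _ _ => rfl, fun l => ⟨by simp, by simp [Rad], by simpa using hW l, ?_⟩⟩
    have : Rad (fun z => h z * (1 - h z)) l ≤ 2 * (1 / 4) := by
      apply rad_le_const hh.ai_supp1_g
      intro z
      nlinarith [sq_nonneg (h z - 1 / 2)]
    have h3 : 0 ≤ η / δ := by positivity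
    push_cast
    simp only [pow_zero]
    linarith
  | succ N ih =>
    obtain ⟨k, hk, hkh, hl⟩ := ih
    obtain ⟨n, hn⟩ := main_step hχ h0 h1 hh hk η hη
    refine ⟨stp χ k n, stp_nice hχ h0 h1 hk n, ?_, fun l => ?_⟩
    · intro z hz
      unfold stp
      rw [hz, hkh z hz]
      ring
    obtain ⟨a1, a2, a3, a4⟩ := hl l
    obtain ⟨b1, b2, b3, b4⟩ := hn l
    refine ⟨?_, ?_, ?_, ?_⟩
    · push_cast
      rw [abs_le] at a1 b1 ⊢
      constructor <;> linarith [a1.1, a1.2, b1.1, b1.2]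
    · push_cast; linarith
    · push_cast; linarith
    · have hg : Supp1 (fun z => χ z * (k z * (1 - k z))) := by
        refine ⟨hχ.mul hk.ai_supp1_g.c1, fun z hz => by rw [hk.supp z hz]; ring⟩
      have g4 : Supp1 (fun z => (χ z * (k z * (1 - k z))) ^ 2 / 2) := by
        have := hg.mul' (hg.c1.div_const 2)
        refine ⟨?_, fun z hz => by rw [hk.supp z hz]; ring⟩
        convert this.c1 using 2
        ring
      have hdg : Supp1 (fun z => (χ z * (k z * (1 - k z))) * δ) := hg.mul' contDiff_const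
      have e1 : Rad (fun z => (χ z * (k z * (1 - k z))) * δ - (χ z * (k z * (1 - k z))) ^ 2 / 2) l ≤
          2 * (δ ^ 2 / 2) := by
        apply rad_le_const (hdg.sub' g4)
        intro z
        nlinarith [sq_nonneg (χ z * (k z * (1 - k z)) - δ)]
      rw [rad_sub hdg g4] at e1
      have e2 : Rad (fun z => (χ z * (k z * (1 - k z))) * δ) l =
          Rad (fun z => χ z * (k z * (1 - k z))) l * δ := by
        unfold Rad
        rw [← integral_mul_const]
      have hA : Supp1 (fun z => (1 - χ z) * (k z * (1 - k z))) := by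
        refine ⟨(contDiff_const.sub hχ).mul hk.ai_supp1_g.c1, fun z hz => by rw [hk.supp z hz]; ring⟩
      have e3 : Rad (fun z => k z * (1 - k z)) l = Rad (fun z => χ z * (k z * (1 - k z))) l +
          Rad (fun z => (1 - χ z) * (k z * (1 - k z))) l := by
        rw [← rad_add hg hA]
        congr 1
        ext z
        ring
      rw [e2] at e1
      set Jk := Rad (fun z => k z * (1 - k z)) l
      set Gk := Rad (fun z => χ z * (k z * (1 - k z))) l
      set Wk := Rad (fun z => (1 - χ z) * (k z * (1 - k z))) l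
      set Qk := Rad (fun z => (χ z * (k z * (1 - k z))) ^ 2 / 2) l
      have c1 : Jk - Qk + η ≤ (1 - δ) * Jk + δ * (ω + N * η) + δ ^ 2 + η := by
        have : Gk = Jk - Wk := by linarith
        rw [this] at e1
        nlinarith
      have c2 : (1 - δ) * Jk ≤ (1 - δ) * ((1 - δ) ^ N + (ω + N * η + δ + η / δ)) := by
        apply mul_le_mul_of_nonneg_left a4 (by linarith)
      have c3 : δ * (η / δ) = η := by field_simp
      push_cast
      have c4 : (1 - δ) * ((1 - δ) ^ N + (ω + N * η + δ + η / δ)) + δ * (ω + N * η) + δ ^ 2 + η =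
          (1 - δ) ^ (N + 1) + (ω + N * η + δ + η / δ) - δ * (η / δ) + η := by ring
      rw [c3] at c4
      nlinarith

/-- a nice `h` is uniformly small near the unit circle -/
lemma exists_radius {h : ℂ → ℝ} (hh : Nice h) (ω : ℝ) (hω : 0 < ω) :
    ∃ r : ℝ, 0 < r ∧ r < 1 ∧ ∀ z, r ≤ ‖z‖ → h z ≤ ω := by
  by_cases hne : ({z : ℂ | ω ≤ h z}).Nonempty
  · have hcl : IsClosed {z : ℂ | ω ≤ h z} := isClosed_le continuous_const hh.c1.continuous
    have hsub : {z : ℂ | ω ≤ h z} ⊆ Metric.closedBall 0 1 := by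
      intro z hz
      rw [mem_closedBall_zero_iff]
      by_contra hcon
      push Not at hcon
      have := hh.supp z hcon.le
      simp only [mem_setOf_eq] at hz
      linarith
    have hcpt : IsCompact {z : ℂ | ω ≤ h z} := (isCompact_closedBall (0 : ℂ) 1).of_isClosed_subset hcl hsub
    obtain ⟨z0, hz0, hmax⟩ := hcpt.exists_isMaxOn hne (continuous_norm.continuousOn)
    have hz1 : ‖z0‖ < 1 := by
      by_contra hcon
      push Not at hcon
      have := hh.supp z0 hcon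
      simp only [mem_setOf_eq] at hz0
      linarith
    refine ⟨(1 + ‖z0‖) / 2, by positivity, by linarith, fun z hz => ?_⟩
    by_contra hcon
    push Not at hcon
    have : ‖z‖ ≤ ‖z0‖ := hmax hcon.le
    linarith
  · refine ⟨1 / 2, by norm_num, by norm_num, fun z _ => ?_⟩
    by_contra hcon
    push Not at hcon
    exact hne ⟨z, hcon.le⟩

/-- uniform positive lower bound of the Radon transform on lines meeting a smaller disc -/
lemma exists_lower {h : ℂ → ℝ} (hh : Nice h) (hpos : ∀ l : ℝ × ℝ, |l.2| < 1 → 0 < Rad h l) (r : ℝ)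
    (hr0 : 0 < r) (hr1 : r < 1) : ∃ m : ℝ, 0 < m ∧ ∀ l : ℝ × ℝ, |l.2| ≤ r → m ≤ Rad h l := by
  have hc : Continuous (Rad h) := (Rad_contDiff h hh.c1 hh.supp).continuous
  have hK : IsCompact (Icc (0 : ℝ) (2 * π) ×ˢ Icc (-r) r) := isCompact_Icc.prod isCompact_Icc
  have hne : (Icc (0 : ℝ) (2 * π) ×ˢ Icc (-r) r).Nonempty := by
    refine ⟨(0, 0), ⟨⟨le_rfl, by positivity⟩, ⟨by simp [hr0.le], hr0.le⟩⟩⟩
  obtain ⟨l0, hl0, hmin⟩ := hK.exists_isMinOn hne hc.continuousOn
  refine ⟨Rad h l0, hpos l0 ?_, ?_⟩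
  · have := hl0.2
    rw [mem_Icc] at this
    rw [abs_lt]
    constructor <;> linarith [this.1, this.2]
  · intro l hl
    have hper : Function.Periodic (fun θ : ℝ => Complex.exp (θ * Complex.I)) (2 * π) := by
      intro θ
      show Complex.exp (((θ + 2 * π : ℝ) : ℂ) * Complex.I) = Complex.exp ((θ : ℂ) * Complex.I)
      push_cast
      rw [add_mul, Complex.exp_add, Complex.exp_two_pi_mul_I, mul_one]
    obtain ⟨θ', hθ', he⟩ := hper.exists_mem_Ico₀ (by positivity) l.1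
    have e : Rad h l = Rad h (θ', l.2) := by
      unfold Rad pt
      simp only at he ⊢
      rw [he]
    rw [e]
    apply hmin
    rw [abs_le] at hl
    exact ⟨⟨hθ'.1, hθ'.2.le⟩, ⟨hl.1, hl.2⟩⟩

end AI2

open AI AI2 in
theorem almost_indicator2 (h : ℂ → ℝ) (hh : Nice h) (hpos : ∀ l : ℝ × ℝ, |l.2| < 1 → 0 < Rad h l)
    (ε : ℝ) (hε : 0 < ε) : ∃ h', Nice h' ∧
    (∀ l, |Rad h' l - Rad h l| ≤ ε * Rad h l) ∧
    (∀ l, Rad (fun z => |h' z - h z|) l ≤ 2 * Rad (fun z => h z * (1 - h z)) l + ε) ∧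
    (∀ l, Rad (fun z => h' z * (1 - h' z)) l ≤ ε) := by
  set ε₁ : ℝ := min ε 1 with hε₁
  have hε₁0 : 0 < ε₁ := by positivity
  have hε₁1 : ε₁ ≤ 1 := min_le_right _ _
  have hε₁ε : ε₁ ≤ ε := min_le_left _ _
  obtain ⟨r', hr'0, hr'1, hr'⟩ := exists_radius hh (ε₁ / 16) (by positivity)
  set r : ℝ := (1 + r') / 2 with hr
  have hr0 : 0 < r := by positivity
  have hr1 : r < 1 := by rw [hr]; linarith
  have hrr : r' < r := by rw [hr]; linarith
  let b : ContDiffBump (0 : ℂ) := ⟨r', r, hr'0, hrr⟩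
  have hχ : ContDiff ℝ 1 (fun z => b z) := b.contDiff
  have h0 : ∀ z, 0 ≤ b z := fun z => b.nonneg
  have h1 : ∀ z, b z ≤ 1 := fun z => b.le_one
  have hb1 : ∀ z : ℂ, ‖z‖ ≤ r' → b z = 1 := by
    intro z hz
    apply b.one_of_mem_closedBall
    rw [mem_closedBall_zero_iff]
    exact hz
  have hb0 : ∀ z : ℂ, r ≤ ‖z‖ → b z = 0 := by
    intro z hz
    apply b.zero_of_le_dist
    rw [dist_zero_right]
    exact hz
  obtain ⟨m, hm, hml⟩ := exists_lower hh hpos r hr0 hr1
  have hW : ∀ l, Rad (fun z => (1 - b z) * (h z * (1 - h z))) l ≤ ε₁ / 8 := by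
    intro l
    have hA : Supp1 (fun z => (1 - b z) * (h z * (1 - h z))) := by
      refine ⟨(contDiff_const.sub hχ).mul hh.ai_supp1_g.c1, fun z hz => by rw [hh.supp z hz]; ring⟩
    have := rad_le_const hA (ε₁ / 16) (by
      intro z
      rcases le_or_gt ‖z‖ r' with hz | hz
      · rw [hb1 z hz]
        simp
        positivity
      · have c1 := hr' z hz.le
        have c2 := h0 z
        have c3 := h1 z
        have c4 := hh.nonneg z
        have c5 := hh.le_one z
        calc (1 - b z) * (h z * (1 - h z)) ≤ 1 * (h z * 1) := by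
              gcongr
              · linarith
              · linarith
          _ = h z := by ring
          _ ≤ _ := c1) l
    linarith
  set δ : ℝ := ε₁ / 8 with hδ
  have hδ0 : 0 < δ := by positivity
  have hδ1 : δ ≤ 1 := by rw [hδ]; linarith
  obtain ⟨N, hN⟩ : ∃ N : ℕ, (1 - δ) ^ N < ε₁ / 4 := exists_pow_lt_of_lt_one (by positivity) (by linarith)
  obtain ⟨η, hη0, hη1, hη2, hη3⟩ : ∃ η : ℝ, 0 < η ∧ N * η ≤ ε₁ / 8 ∧ N * η ≤ ε * m ∧ η / δ ≤ ε₁ / 8 := by
    refine ⟨min (min (ε₁ / 8 / (N + 1)) (ε * m / (N + 1))) (ε₁ / 8 * δ), by positivity, ?_, ?_, ?_⟩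
    · have a1 : min (min (ε₁ / 8 / (N + 1)) (ε * m / (N + 1))) (ε₁ / 8 * δ) ≤ ε₁ / 8 / ((N : ℝ) + 1) :=
        (min_le_left _ _).trans (min_le_left _ _)
      calc (N : ℝ) * _ ≤ (N + 1) * (ε₁ / 8 / ((N : ℝ) + 1)) := by
            gcongr
            linarith
        _ = _ := by field_simp
    · have a1 : min (min (ε₁ / 8 / (N + 1)) (ε * m / (N + 1))) (ε₁ / 8 * δ) ≤ ε * m / ((N : ℝ) + 1) :=
        (min_le_left _ _).trans (min_le_right _ _)
      calc (N : ℝ) * _ ≤ (N + 1) * (ε * m / ((N : ℝ) + 1)) := by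
            gcongr
            linarith
        _ = _ := by field_simp
    · rw [div_le_iff₀ hδ0]
      exact min_le_right _ _
  obtain ⟨k, hk, hkh, hl⟩ := iter hχ h0 h1 hh δ (ε₁ / 8) η hδ0 hδ1 hη0 hW (by positivity) N
  refine ⟨k, hk, fun l => ?_, fun l => ?_, fun l => ?_⟩
  · rcases le_or_gt |l.2| r with hlr | hlr
    · have c1 := (hl l).1
      have c2 := hml l hlr
      calc _ ≤ _ := c1
        _ ≤ ε * m := hη2
        _ ≤ _ := by gcongr
    · have e : Rad k l = Rad h l := by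
        unfold Rad
        congr 1
        ext σ
        apply hkh
        apply hb0
        have h3 := AI.norm_pt_sq l.1 l.2 σ
        have h4 : r ^ 2 ≤ l.2 ^ 2 := by rw [← sq_abs l.2]; gcongr
        have h5 : r ^ 2 ≤ ‖pt l.1 l.2 σ‖ ^ 2 := by rw [h3]; nlinarith [sq_nonneg σ]
        exact le_of_sq_le_sq h5 (norm_nonneg _)
      rw [e, sub_self, abs_zero]
      apply mul_nonneg hε.le
      apply integral_nonneg
      intro σ
      exact hh.nonneg _
  · have hkh' : Supp1 (fun z => (k z - h z) * (1 - 2 * h z)) :=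
      (hk.ai_supp1.sub' hh.ai_supp1).mul' (contDiff_const.sub (contDiff_const.mul hh.c1))
    have hg2 : Supp1 (fun z => (h z * (1 - h z)) * 2) := hh.ai_supp1_g.mul' contDiff_const
    have e1 : Rad (fun z => |k z - h z|) l ≤
        Rad (fun z => (h z * (1 - h z)) * 2 + (k z - h z) * (1 - 2 * h z)) l := by
      apply integral_mono
      · exact (rad_integrable (hk.ai_supp1.sub' hh.ai_supp1) l).abs
      · exact rad_integrable (hg2.add' hkh') l
      · intro σ
        show |k (pt l.1 l.2 σ) - h (pt l.1 l.2 σ)| ≤ (h (pt l.1 l.2 σ) * (1 - h (pt l.1 l.2 σ))) * 2 +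
          (k (pt l.1 l.2 σ) - h (pt l.1 l.2 σ)) * (1 - 2 * h (pt l.1 l.2 σ))
        have a1 := hk.nonneg (pt l.1 l.2 σ)
        have a2 := hk.le_one (pt l.1 l.2 σ)
        have a3 := hh.nonneg (pt l.1 l.2 σ)
        have a4 := hh.le_one (pt l.1 l.2 σ)
        rw [abs_le]
        constructor
        · nlinarith [mul_nonneg a1 (by linarith : 0 ≤ 1 - h (pt l.1 l.2 σ))]
        · nlinarith [mul_nonneg a3 (by linarith : 0 ≤ 1 - k (pt l.1 l.2 σ))]
    rw [rad_add hg2 hkh'] at e1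
    have e2 : Rad (fun z => (h z * (1 - h z)) * 2) l = Rad (fun z => h z * (1 - h z)) l * 2 := by
      unfold Rad
      rw [← integral_mul_const]
    have e3 := (hl l).2.1
    rw [e2] at e1
    linarith
  · have e := (hl l).2.2.2
    linarith

end Croft
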