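import Mathlib

open MeasureTheory Set Filter Topology
open scoped ENNReal NNReal

namespace Croft.Bern

/-- General choice lemma. Hint: let `c` be the continuum cardinal. Well-order `I × Bool` (or `I`) with
order type at most `c.ord`, so that every proper initial segment has cardinality `< c`. By well-founded
recursion choose `f (i, b) ∈ A i` different from all earlier values (possible as `#(A i) ≥ c`). Then `f` is
injective and `N = {f (i, true)}` works, the points `f (i, false)` are not in `N`. -/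
theorem bernstein_choice {X I : Type} (hI : Cardinal.mk I ≤ Cardinal.continuum)
    (A : I → Set X) (hA : ∀ i, Cardinal.continuum ≤ Cardinal.mk (A i)) :
    ∃ N : Set X, ∀ i, (∃ x ∈ A i, x ∈ N) ∧ (∃ x ∈ A i, x ∉ N) := by
  classical
  have hJ : Cardinal.mk (I × Bool) ≤ Cardinal.continuum := by
    rw [Cardinal.mk_prod, Cardinal.lift_id, Cardinal.lift_id]
    have h2 : Cardinal.mk Bool ≤ Cardinal.continuum := by
      rw [Cardinal.mk_bool]
      exact (Cardinal.nat_lt_continuum 2).le
    calc Cardinal.mk I * Cardinal.mk Bool ≤ Cardinal.continuum * Cardinal.continuum :=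
          mul_le_mul' hI h2
      _ = Cardinal.continuum := Cardinal.continuum_mul_self
  obtain ⟨lo, wf, hord⟩ := Cardinal.exists_ord_eq_type_lt (I × Bool)
  have hne : ∀ j : I × Bool, (A j.1).Nonempty := by
    intro j
    rw [← Set.nonempty_coe_sort, ← Cardinal.mk_ne_zero_iff]
    intro h0
    have := hA j.1
    rw [h0] at this
    exact absurd (lt_of_lt_of_le Cardinal.continuum_pos this) (lt_irrefl _)
  let F : ∀ j : I × Bool, (∀ k, k < j → X) → X := fun j g =>
    if h : (A j.1 \ range (fun k : {k // k < j} => g k.1 k.2)).Nonempty then h.some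
    else (hne j).some
  let f : I × Bool → X := wellFounded_lt.fix F
  have hf : ∀ j, f j = F j (fun k _ => f k) := fun j => wellFounded_lt.fix_eq F j
  have hmem : ∀ j, f j ∈ A j.1 ∧ ∀ k, k < j → f k ≠ f j := by
    intro j
    have hnon : (A j.1 \ range (fun k : {k // k < j} => f k.1)).Nonempty := by
      by_contra hcon
      rw [Set.not_nonempty_iff_eq_empty, Set.sdiff_eq_empty] at hcon
      have h1 : Cardinal.mk (A j.1) ≤ Cardinal.mk (range (fun k : {k // k < j} => f k.1)) :=
        Cardinal.mk_le_mk_of_subset hcon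
      have h2 : Cardinal.mk (range (fun k : {k // k < j} => f k.1)) ≤ Cardinal.mk {k // k < j} :=
        Cardinal.mk_range_le
      have h3 : Cardinal.mk {k // k < j} < Cardinal.mk (I × Bool) := Cardinal.mk_Iio_lt j hord
      exact absurd (((hA j.1).trans h1).trans h2) (not_le.2 (lt_of_lt_of_le h3 hJ))
    have h4 : f j = hnon.some := by
      rw [hf j]
      show (if h : (A j.1 \ range (fun k : {k // k < j} => f k.1)).Nonempty then h.some
        else (hne j).some) = _
      rw [dif_pos hnon]
    have h5 := hnon.some_mem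
    rw [← h4] at h5
    refine ⟨h5.1, fun k hk he => h5.2 ⟨⟨k, hk⟩, he⟩⟩
  have hinj : ∀ j k, f j = f k → j = k := by
    intro j k h
    rcases lt_trichotomy j k with h1 | h1 | h1
    · exact absurd h ((hmem k).2 j h1)
    · exact h1
    · exact absurd h.symm ((hmem j).2 k h1)
  refine ⟨{x | ∃ i, x = f (i, true)}, fun i => ⟨⟨f (i, true), (hmem (i, true)).1, i, rfl⟩,
    ⟨f (i, false), (hmem (i, false)).1, ?_⟩⟩⟩
  rintro ⟨i', hi'⟩
  have := hinj _ _ hi'
  simp at this

theorem mk_borel_le : Cardinal.mk {M : Set ℝ // MeasurableSet M} ≤ Cardinal.continuum := by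
  have h1 : (borel ℝ) = MeasurableSpace.generateFrom
      (⋃ (a : ℚ) (b : ℚ) (_ : a < b), {Ioo (a : ℝ) (b : ℝ)}) := Real.borel_eq_generateFrom_Ioo_rat
  have hcount : (⋃ (a : ℚ) (b : ℚ) (_ : a < b), {Ioo (a : ℝ) (b : ℝ)}).Countable := by
    refine Set.countable_iUnion fun a => Set.countable_iUnion fun b => Set.countable_iUnion fun _ =>
      Set.countable_singleton _
  have h2 : Cardinal.mk (⋃ (a : ℚ) (b : ℚ) (_ : a < b), {Ioo (a : ℝ) (b : ℝ)} : Set (Set ℝ)) ≤
      Cardinal.continuum :=
    (Cardinal.le_aleph0_iff_set_countable.2 hcount).trans Cardinal.aleph0_le_continuum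
  have h3 := MeasurableSpace.cardinal_measurableSet_le_continuum h2
  have h4 : {M : Set ℝ | MeasurableSet M} = {t | @MeasurableSet ℝ (MeasurableSpace.generateFrom
      (⋃ (a : ℚ) (b : ℚ) (_ : a < b), {Ioo (a : ℝ) (b : ℝ)})) t} := by
    ext t
    rw [← h1]
  rw [← h4] at h3
  exact h3

theorem mk_plane_le : Cardinal.mk (EuclideanSpace ℝ (Fin 2)) ≤ Cardinal.continuum := by
  have h1 : Function.Injective (fun x : EuclideanSpace ℝ (Fin 2) => (x 0, x 1)) := by
    intro x y h
    simp only [Prod.mk.injEq] at h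
    ext i
    fin_cases i
    · exact h.1
    · exact h.2
  have h2 := Cardinal.mk_le_of_injective h1
  refine h2.trans ?_
  rw [Cardinal.mk_prod, Cardinal.lift_id, Cardinal.mk_real, Cardinal.continuum_mul_self]

theorem mk_ge_of_measure {M : Set ℝ} (hM : MeasurableSet M) (h0 : volume M ≠ 0) :
    Cardinal.continuum ≤ Cardinal.mk M := by
  obtain ⟨K, hKM, hK, hK0⟩ := hM.exists_lt_isCompact (μ := volume) (pos_iff_ne_zero.2 h0)
  have hunc : ¬ K.Countable := fun hc => hK0.ne' (hc.measure_zero volume)
  obtain ⟨f, hf, -, hinj⟩ := hK.isClosed.exists_nat_bool_injection_of_not_countable hunc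
  have h1 : Cardinal.mk (ℕ → Bool) ≤ Cardinal.mk M := by
    refine Cardinal.mk_le_of_injective (f := fun x => (⟨f x, hKM (hf ⟨x, rfl⟩)⟩ : M)) ?_
    intro x y hxy
    exact hinj (congrArg Subtype.val hxy)
  have h2 : Cardinal.mk (ℕ → Bool) = Cardinal.continuum := by
    simp
  rw [← h2]; exact h1

/-- Main target. For a Borel plane set `G` there is `N ⊆ G` such that on every line on which `G` has positive
length the set `(E \ G) ∪ N` has a non-measurable section, whatever `E` is.
Hint: index set = triples `(x, v, M)` with `M ⊆ ℝ` Borel, `volume M ≠ 0`, `M ⊆ {s | x + s • v ∈ G}`, `v ≠ 0`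
(cardinality at most continuum: `MeasurableSpace.cardinal_measurableSet_le_continuum` for the Borel sets).
For such an index `A = (fun s => x + s • v) '' M` has cardinality at least continuum: `M` contains a compact set of
positive measure (inner regularity, `MeasurableSet.exists_isCompact_lt_add` or similar), which is closed and
uncountable, so `IsClosed.exists_nat_bool_injection_of_not_countable` applies. Take `N' = N ∩ G` for the `N` of
`bernstein_choice`. Put `G₁ = {s | x + s • v ∈ G}` (Borel), `N₁ = {s | x + s • v ∈ N'}`. If the section of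
`(E \ G) ∪ N'` were null measurable, so would be `N₁ =` section `∩ G₁`, and `G₁ \ N₁`; one of them has positive measure,
hence contains a Borel set `M` of positive measure; it would have to meet both `N'` and its complement. -/
theorem bernstein_lines (G : Set (EuclideanSpace ℝ (Fin 2))) (hG : MeasurableSet G) :
    ∃ N ⊆ G, ∀ (x v : EuclideanSpace ℝ (Fin 2)), ‖v‖ = 1 → volume {s : ℝ | x + s • v ∈ G} ≠ 0 →
      ∀ E : Set (EuclideanSpace ℝ (Fin 2)),
        ¬ NullMeasurableSet {s : ℝ | x + s • v ∈ (E \ G) ∪ N} volume := by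
  classical
  let I : Type := {t : (EuclideanSpace ℝ (Fin 2) × EuclideanSpace ℝ (Fin 2)) ×
    {M : Set ℝ // MeasurableSet M} // volume t.2.1 ≠ 0 ∧ t.1.2 ≠ 0}
  have hI : Cardinal.mk I ≤ Cardinal.continuum := by
    refine (Cardinal.mk_subtype_le _).trans ?_
    simp only [Cardinal.mk_prod, Cardinal.lift_id]
    calc _ ≤ Cardinal.continuum * Cardinal.continuum * Cardinal.continuum :=
          mul_le_mul' (mul_le_mul' mk_plane_le mk_plane_le) mk_borel_le
      _ = Cardinal.continuum := by rw [Cardinal.continuum_mul_self, Cardinal.continuum_mul_self]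
  let A : I → Set (EuclideanSpace ℝ (Fin 2)) := fun t =>
    (fun s : ℝ => t.1.1.1 + s • t.1.1.2) '' t.1.2.1
  have hA : ∀ i, Cardinal.continuum ≤ Cardinal.mk (A i) := by
    rintro ⟨⟨⟨x, v⟩, ⟨M, hM⟩⟩, h0, hv⟩
    have hinj : Function.Injective (fun s : ℝ => x + s • v) := by
      intro s t hst
      have h1 : s • v = t • v := add_left_cancel hst
      have h2 : (s - t) • v = 0 := by rw [sub_smul, h1, sub_self]
      rcases smul_eq_zero.1 h2 with h3 | h3
      · linarith
      · exact absurd h3 hv
    show _ ≤ Cardinal.mk ((fun s : ℝ => x + s • v) '' M)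
    rw [Cardinal.mk_image_eq hinj]
    exact mk_ge_of_measure hM h0
  obtain ⟨N, hN⟩ := bernstein_choice hI A hA
  refine ⟨N ∩ G, inter_subset_right, ?_⟩
  intro x v hv hvol E hnull
  have hv0 : v ≠ 0 := by
    rintro rfl
    simp at hv
  set G₁ : Set ℝ := {s | x + s • v ∈ G} with hG₁
  set N₁ : Set ℝ := {s | x + s • v ∈ N ∩ G} with hN₁
  have hG₁m : MeasurableSet G₁ := by
    have hc : Continuous (fun s : ℝ => x + s • v) := by fun_prop
    exact hc.measurable hG
  have hN₁m : NullMeasurableSet N₁ volume := by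
    have h1 : N₁ = {s : ℝ | x + s • v ∈ (E \ G) ∪ (N ∩ G)} ∩ G₁ := by
      ext s
      simp only [hN₁, hG₁, Set.mem_ofPred_eq, Set.mem_inter_iff, Set.mem_union, Set.mem_sdiff]
      tauto
    rw [h1]
    exact hnull.inter hG₁m.nullMeasurableSet
  have hpos : volume N₁ ≠ 0 ∨ volume (G₁ \ N₁) ≠ 0 := by
    by_contra hcon
    push Not at hcon
    apply hvol
    have h2 : G₁ ⊆ N₁ ∪ (G₁ \ N₁) := fun s hs => by
      by_cases h : s ∈ N₁
      · exact Or.inl h
      · exact Or.inr ⟨hs, h⟩
    refine measure_mono_null h2 ?_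
    rw [measure_union_null_iff]
    exact hcon
  rcases hpos with h | h
  · obtain ⟨M, hMN, hM, hae⟩ := hN₁m.exists_measurable_subset_ae_eq
    have hM0 : volume M ≠ 0 := by rw [measure_congr hae]; exact h
    obtain ⟨y, ⟨s, hs, rfl⟩, hy⟩ := (hN ⟨⟨⟨x, v⟩, ⟨M, hM⟩⟩, hM0, hv0⟩).2
    exact hy (hMN hs).1
  · obtain ⟨M, hMN, hM, hae⟩ :=
      (hG₁m.nullMeasurableSet.diff hN₁m).exists_measurable_subset_ae_eq
    have hM0 : volume M ≠ 0 := by rw [measure_congr hae]; exact h
    obtain ⟨y, ⟨s, hs, rfl⟩, hy⟩ := (hN ⟨⟨⟨x, v⟩, ⟨M, hM⟩⟩, hM0, hv0⟩).1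
    exact (hMN hs).2 ⟨hy, (hMN hs).1⟩

end Croft.Bern
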