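import Mathlib
import Pool.Agent.Helper952.Croft.Defs
import Pool.Agent.Helper991.Croft.AlmostIndicator

/-! Assembly for MP_f884a2_an: from `kill` and `almost_indicator` to the Borel part of the
counterexample (helper991). -/

open MeasureTheory Real Set Filter Topology

namespace Croft

/-- the property delivered by `kill` for one cell around the line `x` -/
def CellKill (x : ℝ × ℝ) (e c0 : ℝ) : Prop :=
  ∀ h, Nice h → ∀ t > 0, ∀ ε > 0,
    ∃ h', Nice h' ∧ ∃ U : Set ℂ, MeasurableSet U ∧ volume U ≤ ENNReal.ofReal ε ∧ ∃ δ > 0,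
      (∀ l, |Rad h' l - Rad h l| ≤ ε) ∧ (∀ z, |h' z - h z| ≤ ε) ∧
      ∀ θ p, |θ - x.1| ≤ e → |p - x.2| ≤ e → |Rad h' (θ, p) - t| ≤ δ →
        ENNReal.ofReal c0 ≤ volume {σ : ℝ | |σ| ≤ 1 ∧ pt θ p σ ∈ U}

/-- the statement of the lemma `kill` -/
def KillStmt : Prop :=
  ∀ θ0 p0 : ℝ, |p0| < 1 → ∃ e > 0, ∃ c0 > 0, CellKill (θ0, p0) e c0

namespace FF
open AI

lemma diff_supp1 {h h' : ℂ → ℝ} (hh : Nice h) (hh' : Nice h') : Supp1 (fun z => h' z - h z) :=
  ⟨hh'.c1.sub hh.c1, fun z hz => by rw [hh'.supp z hz, hh.supp z hz]; ring⟩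

lemma sq_int_le {h h' h1 : ℂ → ℝ} (hh : Nice h) (hh' : Nice h') (hh1 : Nice h1) :
    ∫ z, (h' z - h z) ^ 2 ≤ 2 * (∫ z, (h1 z - h z) ^ 2) + 2 * ∫ z, (h' z - h1 z) ^ 2 := by
  have a1 := (sq_supp1 (diff_supp1 hh hh')).integrable
  have a2 := (sq_supp1 (diff_supp1 hh hh1)).integrable
  have a3 := (sq_supp1 (diff_supp1 hh1 hh')).integrable
  rw [← integral_const_mul, ← integral_const_mul, ← integral_add (a2.const_mul 2) (a3.const_mul 2)]
  apply integral_mono a1 ((a2.const_mul 2).add (a3.const_mul 2))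
  intro z
  show (h' z - h z) ^ 2 ≤ 2 * (h1 z - h z) ^ 2 + 2 * (h' z - h1 z) ^ 2
  nlinarith [sq_nonneg (h' z - h1 z - (h1 z - h z))]

lemma sq_int_small {h h' : ℂ → ℝ} (hh : Nice h) (hh' : Nice h') (ε : ℝ) (hε : 0 ≤ ε)
    (hd : ∀ z, |h' z - h z| ≤ ε) : ∫ z, (h' z - h z) ^ 2 ≤ ε ^ 2 * V := by
  apply int_le_V (sq_supp1 (diff_supp1 hh hh')) _ _ (sq_nonneg ε)
  intro z
  show (h' z - h z) ^ 2 ≤ ε ^ 2
  rw [← sq_abs]
  have := hd z
  have := abs_nonneg (h' z - h z)
  nlinarith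

lemma J_le {h h' : ℂ → ℝ} (hh : Nice h) (hh' : Nice h') (ε : ℝ) (hε : 0 ≤ ε)
    (hd : ∀ z, |h' z - h z| ≤ ε) : J h' ≤ J h + ε * V := by
  have h1 : Supp1 (fun z => h' z * (1 - h' z) - h z * (1 - h z)) :=
    ⟨hh'.ai_supp1_g.c1.sub hh.ai_supp1_g.c1, fun z hz => by rw [hh'.supp z hz, hh.supp z hz]; ring⟩
  have h2 := int_le_V h1 ε (by
    intro z
    have e1 := hd z
    have e2 := hh.nonneg z
    have e3 := hh.le_one z
    have e4 := hh'.nonneg z
    have e5 := hh'.le_one z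
    have e6 : h' z * (1 - h' z) - h z * (1 - h z) = (h' z - h z) * (1 - h' z - h z) := by ring
    show h' z * (1 - h' z) - h z * (1 - h z) ≤ ε
    rw [e6]
    calc (h' z - h z) * (1 - h' z - h z) ≤ |(h' z - h z) * (1 - h' z - h z)| := le_abs_self _
      _ = |h' z - h z| * |1 - h' z - h z| := abs_mul _ _
      _ ≤ ε * 1 := by
          apply mul_le_mul e1 _ (abs_nonneg _) hε
          rw [abs_le]; constructor <;> linarith
      _ = ε := mul_one _) hε
  have h3 : ∫ z, (h' z * (1 - h' z) - h z * (1 - h z)) = J h' - J h := by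
    unfold J
    exact integral_sub hh'.ai_supp1_g.integrable hh.ai_supp1_g.integrable
  rw [h3] at h2
  linarith

lemma step {x : ℝ × ℝ} {e c0 : ℝ} (hc : CellKill x e c0) (h : ℂ → ℝ) (hh : Nice h)
    (β t ε : ℝ) (hβ : 0 < β) (ht : 0 < t) (hε : 0 < ε) :
    ∃ h' : ℂ → ℝ, ∃ β' : ℝ, ∃ U : Set ℂ, Nice h' ∧ 0 < β' ∧ MeasurableSet U ∧
      volume U ≤ ENNReal.ofReal ε ∧ β' ≤ β / 2 ∧
      (∀ l, |Rad h' l - Rad h l| ≤ β / 2) ∧ J h' ≤ ε ∧ ∫ z, (h' z - h z) ^ 2 ≤ 2 * J h + ε ∧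
      ∀ θ p, |θ - x.1| ≤ e → |p - x.2| ≤ e → |Rad h' (θ, p) - t| ≤ β' →
        ENNReal.ofReal c0 ≤ volume {σ : ℝ | |σ| ≤ 1 ∧ pt θ p σ ∈ U} := by
  have hV := V_pos
  set ε1 : ℝ := min 1 (min (β / 4) (ε / (2 + 2 * V))) with hε1
  have h0 : 0 < ε1 := by positivity
  have i1 : ε1 ≤ 1 := min_le_left _ _
  have i2 : ε1 ≤ β / 4 := (min_le_right _ _).trans (min_le_left _ _)
  have i3 : ε1 ≤ ε / (2 + 2 * V) := (min_le_right _ _).trans (min_le_right _ _)
  rw [le_div_iff₀ (by positivity)] at i3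
  obtain ⟨h1, n1, r1, j1, q1⟩ := almost_indicator h hh ε1 h0
  obtain ⟨h2, n2, U, hU, hUv, δ, hδ, r2, d2, s2⟩ := hc h1 n1 t ht ε1 h0
  have iV : ε1 * V ≤ ε - 2 * ε1 - ε1 * V := by nlinarith
  refine ⟨h2, min δ (β / 2), U, n2, by positivity, hU, ?_, min_le_right _ _, ?_, ?_, ?_, ?_⟩
  · refine hUv.trans (ENNReal.ofReal_le_ofReal ?_)
    nlinarith
  · intro l
    calc |Rad h2 l - Rad h l| = |(Rad h2 l - Rad h1 l) + (Rad h1 l - Rad h l)| := by congr 1; ring
      _ ≤ |Rad h2 l - Rad h1 l| + |Rad h1 l - Rad h l| := abs_add_le _ _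
      _ ≤ ε1 + ε1 := add_le_add (r2 l) (r1 l)
      _ ≤ β / 2 := by linarith
  · have := J_le n1 n2 ε1 h0.le d2
    nlinarith
  · have a1 := sq_int_le hh n2 n1
    have a2 := sq_int_small n1 n2 ε1 h0.le d2
    have a3 : ε1 ^ 2 * V ≤ ε1 * V := by
      have : ε1 ^ 2 ≤ ε1 := by nlinarith
      exact mul_le_mul_of_nonneg_right this hV.le
    nlinarith
  · intro θ p hθ hp hr
    exact s2 θ p hθ hp (hr.trans (min_le_left _ _))


/-- a task: a cell and a level -/
structure Task where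
  x : ℝ × ℝ
  e : ℝ
  c0 : ℝ
  t : ℝ
  he : 0 < e
  hc0 : 0 < c0
  ht : 0 < t
  kill : CellKill x e c0

/-- the data of the construction: densities `h n`, budgets `β n`, sets `U n` -/
structure Chain (T : ℕ → Task) where
  h : ℕ → ℂ → ℝ
  β : ℕ → ℝ
  U : ℕ → Set ℂ
  nice : ∀ n, Nice (h n)
  βpos : ∀ n, 0 < β n
  hU : ∀ n, MeasurableSet (U n)
  Uv : ∀ n, volume (U n) ≤ ENNReal.ofReal ((1 / 4) ^ n)
  βle : ∀ n, β (n + 1) ≤ β n / 2
  rad : ∀ n l, |Rad (h (n + 1)) l - Rad (h n) l| ≤ β n / 2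
  J : ∀ n, J (h (n + 1)) ≤ (1 / 4) ^ n
  sq : ∀ n, ∫ z, (h (n + 1) z - h n z) ^ 2 ≤ 2 * Croft.J (h n) + (1 / 4) ^ n
  serve : ∀ n, ∀ θ p, |θ - (T n).x.1| ≤ (T n).e → |p - (T n).x.2| ≤ (T n).e →
    |Rad (h (n + 1)) (θ, p) - (T n).t| ≤ β (n + 1) →
        ENNReal.ofReal (T n).c0 ≤ volume {σ : ℝ | |σ| ≤ 1 ∧ pt θ p σ ∈ U n}

lemma exists_chain (T : ℕ → Task) (h0 : ℂ → ℝ) (hh0 : Nice h0) (β0 : ℝ) (hβ0 : 0 < β0) :
    ∃ c : Chain T, c.h 0 = h0 ∧ c.β 0 = β0 := by
  classical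
  have key : ∀ (n : ℕ) (s : {q : (ℂ → ℝ) × ℝ // Nice q.1 ∧ 0 < q.2}),
      ∃ (s' : {q : (ℂ → ℝ) × ℝ // Nice q.1 ∧ 0 < q.2}), ∃ U : Set ℂ, MeasurableSet U ∧
      volume U ≤ ENNReal.ofReal ((1 / 4) ^ n) ∧ s'.1.2 ≤ s.1.2 / 2 ∧
      (∀ l, |Rad s'.1.1 l - Rad s.1.1 l| ≤ s.1.2 / 2) ∧ Croft.J s'.1.1 ≤ (1 / 4) ^ n ∧
      ∫ z, (s'.1.1 z - s.1.1 z) ^ 2 ≤ 2 * Croft.J s.1.1 + (1 / 4) ^ n ∧
      ∀ θ p, |θ - (T n).x.1| ≤ (T n).e → |p - (T n).x.2| ≤ (T n).e →
        |Rad s'.1.1 (θ, p) - (T n).t| ≤ s'.1.2 →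
        ENNReal.ofReal (T n).c0 ≤ volume {σ : ℝ | |σ| ≤ 1 ∧ pt θ p σ ∈ U} := by
    rintro n ⟨⟨h, β⟩, hn, hβ⟩
    obtain ⟨h', β', U, a1, a2, a3, a4, a5, a6, a7, a8, a9⟩ :=
      step (T n).kill h hn β (T n).t ((1 / 4) ^ n) hβ (T n).ht (by positivity)
    exact ⟨⟨⟨h', β'⟩, a1, a2⟩, U, a3, a4, a5, a6, a7, a8, a9⟩
  choose next U hnext using key
  let s : ℕ → {q : (ℂ → ℝ) × ℝ // Nice q.1 ∧ 0 < q.2} :=
    fun n => Nat.rec ⟨(h0, β0), hh0, hβ0⟩ (fun n s => next n s) n
  have hs : ∀ n, s (n + 1) = next n (s n) := fun n => rfl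
  refine ⟨⟨fun n => (s n).1.1, fun n => (s n).1.2, fun n => U n (s n), fun n => (s n).2.1,
    fun n => (s n).2.2, ?_, ?_, ?_, ?_, ?_, ?_, ?_⟩, rfl, rfl⟩
  · intro n; exact (hnext n (s n)).1
  · intro n; exact (hnext n (s n)).2.1
  · intro n; rw [hs]; exact (hnext n (s n)).2.2.1
  · intro n l; rw [hs]; exact (hnext n (s n)).2.2.2.1 l
  · intro n; rw [hs]; exact (hnext n (s n)).2.2.2.2.1
  · intro n; rw [hs]; exact (hnext n (s n)).2.2.2.2.2.1
  · intro n; rw [hs]; exact (hnext n (s n)).2.2.2.2.2.2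

variable {T : ℕ → Task} (c : Chain T)

lemma Chain.rad_le (k j : ℕ) (l : ℝ × ℝ) : |Rad (c.h (k + j)) l - Rad (c.h k) l| ≤ c.β k - c.β (k + j) := by
  induction j with
  | zero => simp
  | succ j ih =>
    have h1 := c.rad (k + j) l
    have h2 := c.βle (k + j)
    rw [← add_assoc]
    calc _ = |(Rad (c.h (k + j + 1)) l - Rad (c.h (k + j)) l) + (Rad (c.h (k + j)) l - Rad (c.h k) l)| := by
          congr 1; ring
      _ ≤ |Rad (c.h (k + j + 1)) l - Rad (c.h (k + j)) l| + |Rad (c.h (k + j)) l - Rad (c.h k) l| :=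
          abs_add_le _ _
      _ ≤ _ := by linarith

lemma Chain.rad_le' (k m : ℕ) (hkm : k ≤ m) (l : ℝ × ℝ) :
    |Rad (c.h m) l - Rad (c.h k) l| ≤ c.β k := by
  obtain ⟨j, rfl⟩ := Nat.exists_eq_add_of_le hkm
  have := c.rad_le k j l
  have := c.βpos (k + j)
  linarith

lemma ae_summable (f : ℕ → ℂ → ℝ) (hf : ∀ n, Integrable (f n)) (h0 : ∀ n z, 0 ≤ f n z) (a : ℕ → ℝ)
    (ha : Summable a) (h : ∀ n, ∫ z, f n z ≤ a n) : ∀ᵐ z : ℂ, Summable (fun n => f n z) := by
  have ha0 : ∀ n, 0 ≤ a n := fun n => (integral_nonneg (h0 n)).trans (h n)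
  have h1 : ∫⁻ z : ℂ, ∑' n, ENNReal.ofReal (f n z) ≠ ⊤ := by
    rw [lintegral_tsum (fun n => (hf n).aestronglyMeasurable.aemeasurable.ennreal_ofReal)]
    have h2 : ∀ n, ∫⁻ z : ℂ, ENNReal.ofReal (f n z) ≤ ENNReal.ofReal (a n) := by
      intro n
      rw [← ofReal_integral_eq_lintegral_ofReal (hf n) (Filter.Eventually.of_forall (h0 n))]
      exact ENNReal.ofReal_le_ofReal (h n)
    refine ne_top_of_le_ne_top ?_ (ENNReal.tsum_le_tsum h2)
    rw [← ENNReal.ofReal_tsum_of_nonneg ha0 ha]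
    exact ENNReal.ofReal_ne_top
  have hm : AEMeasurable (fun z : ℂ => ∑' n, ENNReal.ofReal (f n z)) volume :=
    AEMeasurable.ennreal_tsum (fun n => (hf n).aestronglyMeasurable.aemeasurable.ennreal_ofReal)
  have h3 := ae_lt_top' hm h1
  filter_upwards [h3] with z hz
  have h4 := ENNReal.summable_toReal hz.ne
  refine h4.congr ?_
  intro n
  exact ENNReal.toReal_ofReal (h0 n z)

lemma abs_int_le {G : ℂ → ℝ} (h : Supp1 G) (τ : ℝ) (hτ : 0 < τ) :
    ∫ z, |G z| ≤ τ * V + (∫ z, G z ^ 2) / (4 * τ) := by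
  have h2 := sq_supp1 h
  have hz : ∀ z : ℂ, z ∉ Metric.closedBall (0 : ℂ) 1 → G z = 0 := by
    intro z hz
    rw [mem_closedBall_zero_iff] at hz
    exact h.supp z (le_of_not_ge hz)
  have hfin : volume (Metric.closedBall (0 : ℂ) 1) ≠ ⊤ := (isCompact_closedBall (0 : ℂ) 1).measure_lt_top.ne
  have e1 : ∫ z, |G z| = ∫ z in Metric.closedBall (0 : ℂ) 1, |G z| :=
    (setIntegral_eq_integral_of_forall_compl_eq_zero (fun z hz' => by rw [hz z hz', abs_zero])).symm
  have e2 : ∫ z, G z ^ 2 = ∫ z in Metric.closedBall (0 : ℂ) 1, G z ^ 2 :=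
    (setIntegral_eq_integral_of_forall_compl_eq_zero (fun z hz' => by rw [hz z hz']; ring)).symm
  have e3 : τ * V = ∫ z in Metric.closedBall (0 : ℂ) 1, τ := by
    rw [setIntegral_const]
    unfold V
    rw [smul_eq_mul, mul_comm]
  have i1 : Integrable (fun _ : ℂ => τ) (volume.restrict (Metric.closedBall (0 : ℂ) 1)) :=
    integrableOn_const hfin
  have i2 : Integrable (fun z : ℂ => G z ^ 2 / (4 * τ)) (volume.restrict (Metric.closedBall (0 : ℂ) 1)) :=
    (h2.integrable.div_const _).integrableOn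
  rw [e1, e2, e3, ← integral_div, ← integral_add i1 i2]
  apply integral_mono h.integrable.abs.integrableOn (i1.add i2)
  intro z
  show |G z| ≤ τ + G z ^ 2 / (4 * τ)
  have : 0 ≤ (|G z| - 2 * τ) ^ 2 / (4 * τ) := by positivity
  have e : (|G z| - 2 * τ) ^ 2 / (4 * τ) = |G z| ^ 2 / (4 * τ) - |G z| + τ := by field_simp; ring
  rw [sq_abs] at e
  linarith


lemma Chain.ae_conv : ∀ᵐ z : ℂ, Tendsto (fun n => c.h n z) atTop (𝓝 0) ∨
    Tendsto (fun n => c.h n z) atTop (𝓝 1) := by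
  have hV := V_pos
  have q0 : ∀ n, (0:ℝ) < (1 / 2) ^ n := fun n => by positivity
  have e4 : ∀ n : ℕ, ((1:ℝ) / 4) ^ n = (1 / 2) ^ n * (1 / 2) ^ n := by
    intro n; rw [← mul_pow]; norm_num
  have hs1 : ∀ n, ∫ z, |c.h (n + 2) z - c.h (n + 1) z| ≤ (1 / 2) ^ n * (V + 9 / 16) := by
    intro n
    have d := diff_supp1 (c.nice (n + 1)) (c.nice (n + 2))
    have a1 := abs_int_le d ((1 / 2) ^ n) (q0 n)
    have a2 := c.sq (n + 1)
    have a3 := c.J n
    have a4 : ((1:ℝ) / 4) ^ (n + 1) = (1 / 4) ^ n * (1 / 4) := pow_succ _ _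
    have a5 : ∫ z, (c.h (n + 2) z - c.h (n + 1) z) ^ 2 ≤ (9 / 4) * ((1 / 2) ^ n * (1 / 2) ^ n) := by
      rw [← e4]
      have : c.h (n + 1 + 1) = c.h (n + 2) := rfl
      rw [this] at a2
      linarith
    refine a1.trans ?_
    have a6 : (∫ z, (c.h (n + 2) z - c.h (n + 1) z) ^ 2) / (4 * (1 / 2) ^ n) ≤ (1 / 2) ^ n * (9 / 16) := by
      rw [div_le_iff₀ (by positivity)]
      have := q0 n
      nlinarith
    linarith
  have s1 : Summable (fun n : ℕ => ((1:ℝ) / 2) ^ n * (V + 9 / 16)) :=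
    (summable_geometric_of_lt_one (by norm_num) (by norm_num)).mul_right _
  have s2 : Summable (fun n : ℕ => ((1:ℝ) / 4) ^ n) :=
    summable_geometric_of_lt_one (by norm_num) (by norm_num)
  have b1 := ae_summable (fun n z => |c.h (n + 2) z - c.h (n + 1) z|)
    (fun n => (diff_supp1 (c.nice (n + 1)) (c.nice (n + 2))).integrable.abs) (fun n z => abs_nonneg _)
    _ s1 hs1
  have b2 := ae_summable (fun n z => c.h (n + 1) z * (1 - c.h (n + 1) z))
    (fun n => (c.nice (n + 1)).ai_supp1_g.integrable) (fun n z =>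
      mul_nonneg ((c.nice (n + 1)).nonneg z) (by linarith [(c.nice (n + 1)).le_one z]))
    _ s2 (fun n => c.J n)
  filter_upwards [b1, b2] with z z1 z2
  have k1 : CauchySeq (fun n => c.h (n + 1) z) := by
    apply cauchySeq_of_summable_dist
    refine z1.congr ?_
    intro n
    rw [Real.dist_eq, abs_sub_comm]
  obtain ⟨L, hL⟩ := cauchySeq_tendsto_of_complete k1
  have k2 := z2.tendsto_atTop_zero
  have k3 : Tendsto (fun n => c.h (n + 1) z * (1 - c.h (n + 1) z)) atTop (𝓝 (L * (1 - L))) :=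
    hL.mul (hL.const_sub 1)
  have k4 := tendsto_nhds_unique k2 k3
  have hL' : Tendsto (fun n => c.h n z) atTop (𝓝 L) := (tendsto_add_atTop_iff_nat 1).1 hL
  rcases mul_eq_zero.1 k4.symm with h | h
  · left; rw [h] at hL'; exact hL'
  · right
    have : L = 1 := by linarith
    rw [this] at hL'; exact hL'

/-- the limit set -/
def Chain.E : Set ℂ := {z | Tendsto (fun n => c.h n z) atTop (𝓝 1)}

/-- the exceptional null set -/
def Chain.N : Set ℂ := (({z | Tendsto (fun n => c.h n z) atTop (𝓝 0)} ∪ c.E)ᶜ ∪ limsup c.U atTop) ∩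
  Metric.closedBall 0 2

lemma Chain.measZ : MeasurableSet {z : ℂ | Tendsto (fun n => c.h n z) atTop (𝓝 0)} :=
  measurableSet_tendsto _ (fun n => (c.nice n).c1.continuous.measurable)

lemma Chain.measE : MeasurableSet c.E :=
  measurableSet_tendsto _ (fun n => (c.nice n).c1.continuous.measurable)

lemma Chain.measN : MeasurableSet c.N :=
  (((c.measZ.union c.measE).compl).union (MeasurableSet.measurableSet_limsup c.hU)).inter
    measurableSet_closedBall

lemma Chain.volN : volume c.N = 0 := by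
  unfold Chain.N
  apply measure_mono_null inter_subset_left
  apply measure_union_null
  · have := c.ae_conv
    rw [ae_iff] at this
    exact this
  · apply measure_limsup_atTop_eq_zero
    refine ne_top_of_le_ne_top ?_ (ENNReal.tsum_le_tsum c.Uv)
    rw [← ENNReal.ofReal_tsum_of_nonneg (fun n => by positivity)
      (summable_geometric_of_lt_one (by norm_num) (by norm_num))]
    exact ENNReal.ofReal_ne_top

lemma Chain.E_sub : c.E ⊆ Metric.ball 0 1 := by
  intro z hz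
  rw [mem_ball_zero_iff]
  by_contra hcon
  push Not at hcon
  have h1 : Tendsto (fun n => c.h n z) atTop (𝓝 0) := by
    have : (fun n => c.h n z) = fun _ => 0 := by
      ext n
      exact (c.nice n).supp z hcon
    rw [this]
    exact tendsto_const_nhds
  have := tendsto_nhds_unique h1 hz
  norm_num at this

/-- convergence of the line integrals along a line that meets `N` in a null set -/
lemma Chain.rad_tendsto (θ p : ℝ) (hN : volume {σ : ℝ | pt θ p σ ∈ c.N} = 0) :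
    Tendsto (fun n => Rad (c.h n) (θ, p)) atTop (𝓝 (volume {σ : ℝ | pt θ p σ ∈ c.E}).toReal) := by
  have hpc : Continuous (fun σ => pt θ p σ) :=
    continuous_iff_continuousAt.2 fun z => (pt_hasDerivAt θ p z).continuousAt
  have hms : MeasurableSet {σ : ℝ | pt θ p σ ∈ c.E} := hpc.measurable c.measE
  have e1 : (volume {σ : ℝ | pt θ p σ ∈ c.E}).toReal =
      ∫ σ : ℝ, Set.indicator {σ : ℝ | pt θ p σ ∈ c.E} (fun _ => (1:ℝ)) σ := by
    rw [integral_indicator hms]
    simp [Measure.real]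
  rw [e1]
  unfold Rad
  apply tendsto_integral_of_dominated_convergence (Set.indicator (Icc (-1:ℝ) 1) (fun _ => (1:ℝ)))
  · intro n
    exact ((c.nice n).c1.continuous.comp hpc).aestronglyMeasurable
  · rw [integrable_indicator_iff measurableSet_Icc]
    exact integrableOn_const (by simp)
  · intro n
    refine Filter.Eventually.of_forall ?_
    intro σ
    by_cases hσ : σ ∈ Icc (-1:ℝ) 1
    · rw [indicator_of_mem hσ, Real.norm_eq_abs, abs_of_nonneg ((c.nice n).nonneg _)]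
      exact (c.nice n).le_one _
    · rw [indicator_of_notMem hσ]
      have : 1 ≤ |σ| := by
        by_contra h2
        push Not at h2
        rw [abs_lt] at h2
        exact hσ ⟨h2.1.le, h2.2.le⟩
      rw [(c.nice n).supp _ (one_le_norm_pt _ _ _ this), norm_zero]
  · have h1 : ∀ᵐ σ : ℝ, pt θ p σ ∉ c.N := by
      rw [ae_iff]
      simpa using hN
    filter_upwards [h1] with σ hσ
    have hσ' : pt θ p σ ∈ {z | Tendsto (fun n => c.h n z) atTop (𝓝 0)} ∪ c.E := by
      by_contra hcon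
      by_cases hb : pt θ p σ ∈ Metric.closedBall (0:ℂ) 2
      · exact hσ ⟨Or.inl hcon, hb⟩
      · apply hcon
        left
        rw [mem_closedBall_zero_iff, not_le] at hb
        have : (fun n => c.h n (pt θ p σ)) = fun _ => 0 := by
          ext n
          exact (c.nice n).supp _ (by linarith)
        show Tendsto (fun n => c.h n (pt θ p σ)) atTop (𝓝 0)
        rw [this]
        exact tendsto_const_nhds
    rcases hσ' with h2 | h2
    · have h3 : σ ∉ {σ : ℝ | pt θ p σ ∈ c.E} := by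
        intro h4
        have := tendsto_nhds_unique h2 h4
        norm_num at this
      rw [indicator_of_notMem h3]
      exact h2
    · rw [indicator_of_mem (show σ ∈ {σ : ℝ | pt θ p σ ∈ c.E} from h2)]
      exact h2

lemma Chain.limit_close (θ p : ℝ) (hN : volume {σ : ℝ | pt θ p σ ∈ c.N} = 0) (k : ℕ) :
    |Rad (c.h k) (θ, p) - (volume {σ : ℝ | pt θ p σ ∈ c.E}).toReal| ≤ c.β k := by
  have h1 := (c.rad_tendsto θ p hN).sub_const (Rad (c.h k) (θ, p))
  have h2 := h1.abs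
  rw [abs_sub_comm]
  apply le_of_tendsto h2
  filter_upwards [eventually_ge_atTop k] with m hm
  exact c.rad_le' k m hm (θ, p)

/-- the cells of infinitely many tasks -/
lemma Chain.kill_line (θ p : ℝ) (hp : |p| < 1) (hN : volume {σ : ℝ | pt θ p σ ∈ c.N} = 0) (t : ℝ) (c1 : ℝ) (hc1 : 0 < c1)
    (hinf : ∀ n, ∃ m ≥ n, |θ - (T m).x.1| ≤ (T m).e ∧ |p - (T m).x.2| ≤ (T m).e ∧ (T m).t = t ∧
      (T m).c0 = c1) :
    (volume {σ : ℝ | pt θ p σ ∈ c.E}).toReal ≠ t := by
  intro heq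
  have hpc : Continuous (fun σ => pt θ p σ) :=
    continuous_iff_continuousAt.2 fun z => (pt_hasDerivAt θ p z).continuousAt
  set A : ℕ → Set ℝ := fun n => {σ : ℝ | |σ| ≤ 1 ∧ pt θ p σ ∈ c.U n} with hA
  have hAm : ∀ n, MeasurableSet (A n) := by
    intro n
    apply MeasurableSet.inter
    · exact measurableSet_le measurable_id.abs measurable_const
    · exact hpc.measurable (c.hU n)
  set B : ℕ → Set ℝ := fun n => ⋃ m ≥ n, A m with hB
  have hBm : ∀ n, MeasurableSet (B n) := fun n =>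
    MeasurableSet.iUnion fun m => MeasurableSet.iUnion fun _ => hAm m
  have hBanti : Antitone B := by
    intro i j hij
    apply iUnion₂_subset
    intro m hm
    exact subset_iUnion₂_of_subset m (hij.trans hm) (Subset.refl _)
  have hBsub : B 0 ⊆ Icc (-1) 1 := by
    apply iUnion₂_subset
    intro m _ σ hσ
    exact abs_le.1 hσ.1
  have hfin : volume (B 0) ≠ ⊤ := ne_top_of_le_ne_top (by simp) (measure_mono hBsub)
  have htend := tendsto_measure_iInter_atTop (μ := volume) (fun n => (hBm n).nullMeasurableSet) hBanti ⟨0, hfin⟩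
  have hge : ENNReal.ofReal c1 ≤ volume (⋂ n, B n) := by
    apply ge_of_tendsto' htend
    intro n
    obtain ⟨m, hm, g1, g2, g3, g4⟩ := hinf n
    have h1 := c.limit_close θ p hN (m + 1)
    rw [heq, ← g3] at h1
    have h2 := c.serve m θ p g1 g2 h1
    rw [g4] at h2
    refine h2.trans (measure_mono ?_)
    exact subset_iUnion₂_of_subset m hm (Subset.refl _)
  have hsub : (⋂ n, B n) ⊆ {σ : ℝ | pt θ p σ ∈ c.N} := by
    intro σ hσ
    refine ⟨?_, ?_⟩
    swap
    · have h1 := hBsub (mem_iInter.1 hσ 0)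
      have h2 := norm_pt_sq θ p σ
      have h3 := abs_lt.1 hp
      rw [mem_closedBall_zero_iff]
      nlinarith [h1.1, h1.2, norm_nonneg (pt θ p σ)]
    right
    rw [limsup_eq_iInf_iSup_of_nat]
    simp only [iInf_eq_iInter, iSup_eq_iUnion, mem_iInter, mem_iUnion]
    intro n
    have := mem_iInter.1 hσ n
    simp only [hB, mem_iUnion] at this
    obtain ⟨m, hm, hm2⟩ := this
    exact ⟨m, hm, hm2.2⟩
  have h0 := (hge.trans (measure_mono hsub)).trans_eq hN
  rw [nonpos_iff_eq_zero, ENNReal.ofReal_eq_zero] at h0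
  linarith


lemma Chain.int_tendsto : Tendsto (fun n => ∫ z, c.h n z) atTop (𝓝 (volume c.E).toReal) := by
  have e1 : (volume c.E).toReal = ∫ z : ℂ, Set.indicator c.E (fun _ => (1:ℝ)) z := by
    rw [integral_indicator c.measE]
    simp [Measure.real]
  rw [e1]
  apply tendsto_integral_of_dominated_convergence (Set.indicator (Metric.closedBall (0:ℂ) 1) (fun _ => (1:ℝ)))
  · intro n
    exact (c.nice n).c1.continuous.aestronglyMeasurable
  · rw [integrable_indicator_iff measurableSet_closedBall]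
    exact integrableOn_const (isCompact_closedBall (0 : ℂ) 1).measure_lt_top.ne
  · intro n
    refine Filter.Eventually.of_forall ?_
    intro z
    by_cases hz : z ∈ Metric.closedBall (0:ℂ) 1
    · rw [indicator_of_mem hz, Real.norm_eq_abs, abs_of_nonneg ((c.nice n).nonneg _)]
      exact (c.nice n).le_one _
    · rw [indicator_of_notMem hz]
      rw [mem_closedBall_zero_iff] at hz
      rw [(c.nice n).supp _ (le_of_not_ge hz), norm_zero]
  · filter_upwards [c.ae_conv] with z hz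
    rcases hz with h2 | h2
    · have h3 : z ∉ c.E := by
        intro h4
        have := tendsto_nhds_unique h2 h4
        norm_num at this
      rw [indicator_of_notMem h3]
      exact h2
    · rw [indicator_of_mem (show z ∈ c.E from h2)]
      exact h2

lemma Chain.int_lower : (∫ z, c.h 0 z) - 2 * c.β 0 ≤ (volume c.E).toReal := by
  apply ge_of_tendsto' c.int_tendsto
  intro n
  have d := diff_supp1 (c.nice 0) (c.nice n)
  have h1 := rad_abs_le d.integrable d.supp (c.β 0) (by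
    intro l
    have e : Rad (fun z => c.h n z - c.h 0 z) l = Rad (c.h n) l - Rad (c.h 0) l := by
      unfold Rad
      exact integral_sub (rad_integrable (c.nice n).ai_supp1 l) (rad_integrable (c.nice 0).ai_supp1 l)
    rw [e]
    exact c.rad_le' 0 n (Nat.zero_le _) l)
  rw [integral_sub (c.nice n).ai_supp1.integrable (c.nice 0).ai_supp1.integrable] at h1
  have := neg_abs_le ((∫ z, c.h n z) - ∫ z, c.h 0 z)
  linarith

/-- the starting density -/
lemma exists_h0 : ∃ h, Nice h ∧ 0 < ∫ z, h z := by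
  let f : ContDiffBump (0 : ℂ) := ⟨1 / 2, 1, by norm_num, by norm_num⟩
  have hn : Nice f := by
    refine ⟨f.contDiff, fun z => f.nonneg, fun z => f.le_one, ?_⟩
    intro z hz
    apply f.zero_of_le_dist
    simpa using hz
  exact ⟨f, hn, f.integral_pos⟩

/-- A sequence of tasks that serves every cell of a countable cover and every positive rational level
infinitely often. -/
lemma exists_tasks (hk : KillStmt) : ∃ T : ℕ → Task, ∀ (θ p : ℝ), |p| < 1 → ∀ t : ℚ, 0 < t → ∃ c1 > 0,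
    ∀ n, ∃ m ≥ n, |θ - (T m).x.1| ≤ (T m).e ∧ |p - (T m).x.2| ≤ (T m).e ∧ (T m).t = t ∧
      (T m).c0 = c1 := by
  classical
  let X := {q : ℝ × ℝ // |q.2| < 1}
  choose e he c0 hc0 hkill using fun q : X => hk q.1.1 q.1.2 q.2
  have hnhds : ∀ q : X, {y : X | |y.1.1 - q.1.1| < e q ∧ |y.1.2 - q.1.2| < e q} ∈ 𝓝 q := by
    intro q
    have o1 : IsOpen {y : X | |y.1.1 - q.1.1| < e q} := isOpen_lt (by fun_prop) (by fun_prop)
    have o2 : IsOpen {y : X | |y.1.2 - q.1.2| < e q} := isOpen_lt (by fun_prop) (by fun_prop)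
    apply (o1.inter o2).mem_nhds
    simp [he q]
  obtain ⟨S, hS, hcov⟩ := TopologicalSpace.countable_cover_nhds hnhds
  have hSne : S.Nonempty := by
    by_contra hcon
    rw [not_nonempty_iff_eq_empty] at hcon
    rw [hcon] at hcov
    simp only [mem_empty_iff_false, iUnion_of_empty, iUnion_empty] at hcov
    have : (⟨(0, 0), by simp⟩ : X) ∈ (∅ : Set X) := by rw [hcov]; trivial
    exact this
  obtain ⟨f, hf⟩ := hS.exists_eq_range hSne
  let τ : ℚ → ℝ := fun q => if 0 < q then (q : ℝ) else 1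
  have hτ : ∀ q, 0 < τ q := by
    intro q
    simp only [τ]
    split_ifs with h
    · exact_mod_cast h
    · norm_num
  obtain ⟨g, hg⟩ := exists_surjective_nat ℚ
  -- task number m: cell f (m.unpair.1.unpair.1), level g (m.unpair.1.unpair.2)
  refine ⟨fun m => ⟨(f (Nat.unpair (Nat.unpair m).1).1).1, e (f (Nat.unpair (Nat.unpair m).1).1),
    c0 (f (Nat.unpair (Nat.unpair m).1).1), τ (g (Nat.unpair (Nat.unpair m).1).2), he _, hc0 _, hτ _,
    hkill _⟩, ?_⟩
  intro θ p hp t ht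
  have h1 : (⟨(θ, p), hp⟩ : X) ∈ ⋃ x ∈ S, {y : X | |y.1.1 - x.1.1| < e x ∧ |y.1.2 - x.1.2| < e x} := by
    rw [hcov]; trivial
  simp only [mem_iUnion] at h1
  obtain ⟨x, hxS, hx⟩ := h1
  rw [hf] at hxS
  obtain ⟨i, hi⟩ := hxS
  obtain ⟨j, hj⟩ := hg t
  refine ⟨c0 x, hc0 x, ?_⟩
  intro n
  refine ⟨Nat.pair (Nat.pair i j) n, Nat.right_le_pair _ _, ?_⟩
  simp only [Nat.unpair_pair, hi, hj]
  refine ⟨hx.1.le, hx.2.le, ?_, trivial⟩
  simp only [τ, ht, if_true]

/-- The Borel part of the counterexample. -/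
theorem main_borel (hk : KillStmt) : ∃ E N : Set ℂ, MeasurableSet E ∧ MeasurableSet N ∧ volume N = 0 ∧
    E ⊆ Metric.ball 0 1 ∧ N ⊆ Metric.closedBall 0 2 ∧ 0 < volume E ∧
    ∀ θ p : ℝ, volume {σ : ℝ | pt θ p σ ∈ N} = 0 → ∀ t : ℚ, 0 < t →
      volume {σ : ℝ | pt θ p σ ∈ E} ≠ ENNReal.ofReal t := by
  obtain ⟨T, hT⟩ := exists_tasks hk
  obtain ⟨h0, hh0, hpos⟩ := exists_h0
  obtain ⟨c, hc1, hc2⟩ := exists_chain T h0 hh0 ((∫ z, h0 z) / 4) (by positivity)
  refine ⟨c.E, c.N, c.measE, c.measN, c.volN, c.E_sub, inter_subset_right, ?_, ?_⟩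
  · have h1 := c.int_lower
    rw [hc1, hc2] at h1
    by_contra hcon
    rw [not_lt, nonpos_iff_eq_zero] at hcon
    rw [hcon] at h1
    simp at h1
    linarith
  · intro θ p hN t ht heq
    by_cases hp : |p| < 1
    · obtain ⟨c1, hc1, hinf⟩ := hT θ p hp t ht
      apply c.kill_line θ p hp hN t c1 hc1 hinf
      rw [heq, ENNReal.toReal_ofReal (by exact_mod_cast ht.le)]
    · push Not at hp
      have : {σ : ℝ | pt θ p σ ∈ c.E} = ∅ := by
        rw [eq_empty_iff_forall_notMem]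
        intro σ hσ
        have h1 := c.E_sub hσ
        rw [mem_ball_zero_iff] at h1
        have h2 := one_le_norm_pt' θ p σ hp
        linarith
      rw [this, measure_empty] at heq
      have h3 := ENNReal.ofReal_eq_zero.1 heq.symm
      have h4 : (0:ℝ) < t := by exact_mod_cast ht
      linarith

end FF
end Croft
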