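import Mathlib
import Pool.Agent.Helper952.Croft.Defs
import Pool.Agent.Helper991.Croft.AlmostIndicator
import Pool.Agent.Helper991.Croft.Assembly
import Pool.Agent.Helper991.Croft.Bernstein

/-! Final step for MP_f884a2_an: from `KillStmt` to the plane `EuclideanSpace ℝ (Fin 2)` (helper991). -/

open MeasureTheory Real Set Filter Topology

namespace Croft
namespace FF

/-- every line with unit direction is one of the lines `(θ, p)`, up to a shift of the parameter -/
lemma exists_pt (a u : ℂ) (hu : ‖u‖ = 1) : ∃ θ p σ0 : ℝ, ∀ s : ℝ, a + s * u = pt θ p (σ0 + s) := by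
  set w : ℂ := -Complex.I * u with hw
  have hwn : ‖w‖ = 1 := by rw [hw, norm_mul, norm_neg, Complex.norm_I, one_mul, hu]
  have hwe : Complex.exp (Complex.arg w * Complex.I) = w := by
    have := Complex.norm_mul_exp_arg_mul_I w
    rw [hwn] at this
    simpa using this
  have hw0 : w ≠ 0 := by
    intro h
    rw [h, norm_zero] at hwn
    norm_num at hwn
  refine ⟨Complex.arg w, (a / w).re, (a / w).im, ?_⟩
  intro s
  unfold pt
  rw [hwe]
  have h1 : (((a / w).re : ℝ) : ℂ) + (((a / w).im + s : ℝ) : ℂ) * Complex.I = a / w + s * Complex.I := by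
    push_cast
    conv_rhs => rw [← Complex.re_add_im (a / w)]
    ring
  rw [h1, mul_add, mul_div_cancel₀ _ hw0]
  rw [hw]
  ring_nf
  rw [Complex.I_sq]
  ring

theorem final_of_kill (hk : KillStmt) : ∃ E : Set (EuclideanSpace ℝ (Fin 2)),
    Bornology.IsBounded E ∧ NullMeasurableSet E volume ∧ 0 < volume E ∧ volume E < ⊤ ∧
    ∀ t : ℚ, 0 < t → ∀ a v : EuclideanSpace ℝ (Fin 2), ‖v‖ = 1 →
      ¬ (NullMeasurableSet {s : ℝ | a + s • v ∈ E} volume ∧
        volume {s : ℝ | a + s • v ∈ E} = ENNReal.ofReal t) := by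
  obtain ⟨E0, N0, hE, hN, hN0, hEb, hNb, hEpos, hmain⟩ := main_borel hk
  let φ : ℂ ≃ₗᵢ[ℝ] EuclideanSpace ℝ (Fin 2) := Complex.orthonormalBasisOneI.repr
  have hφ : MeasurePreserving φ.symm volume volume := φ.symm.measurePreserving
  set E1 : Set (EuclideanSpace ℝ (Fin 2)) := φ.symm ⁻¹' E0 with hE1
  set G : Set (EuclideanSpace ℝ (Fin 2)) := φ.symm ⁻¹' N0 with hG
  have hE1m : MeasurableSet E1 := hφ.measurable hE
  have hGm : MeasurableSet G := hφ.measurable hN
  have hG0 : volume G = 0 := by rw [hG, hφ.measure_preimage hN.nullMeasurableSet, hN0]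
  have hE1v : volume E1 = volume E0 := hφ.measure_preimage hE.nullMeasurableSet
  obtain ⟨W, hWG, hW⟩ := Croft.Bern.bernstein_lines G hGm
  have hW0 : volume W = 0 := measure_mono_null hWG hG0
  have hae : (E1 \ G ∪ W : Set (EuclideanSpace ℝ (Fin 2))) =ᵐ[volume] E1 := by
    have h1 : (E1 \ G : Set _) =ᵐ[volume] E1 := diff_null_ae_eq_self hG0
    exact (union_ae_eq_left_of_ae_eq_empty (ae_eq_empty.2 hW0)).trans h1
  have hb : E1 \ G ∪ W ⊆ Metric.closedBall 0 2 := by
    intro x hx
    rw [mem_closedBall_zero_iff, ← φ.symm.norm_map x]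
    rcases hx with hx | hx
    · have := hEb hx.1
      rw [mem_ball_zero_iff] at this
      linarith
    · have := hNb (hWG hx)
      rwa [mem_closedBall_zero_iff] at this
  refine ⟨E1 \ G ∪ W, Metric.isBounded_closedBall.subset hb, ?_, ?_, ?_, ?_⟩
  · exact (hE1m.diff hGm).nullMeasurableSet.union (NullMeasurableSet.of_null hW0)
  · rw [measure_congr hae, hE1v]; exact hEpos
  · exact (measure_mono hb).trans_lt (isCompact_closedBall _ _).measure_lt_top
  · rintro t ht a v hv ⟨hm, heq⟩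
    obtain ⟨θ, p, σ0, hpt⟩ := exists_pt (φ.symm a) (φ.symm v) (by rw [φ.symm.norm_map]; exact hv)
    have hpre : ∀ (S : Set ℂ), {s : ℝ | a + s • v ∈ φ.symm ⁻¹' S} =
        (fun s => σ0 + s) ⁻¹' {σ : ℝ | pt θ p σ ∈ S} := by
      intro S
      ext s
      simp only [mem_setOf_eq, mem_preimage]
      rw [← hpt s, map_add, map_smul]
      simp
    have hpc : Continuous (fun σ => pt θ p σ) :=
      continuous_iff_continuousAt.2 fun z => (AI.pt_hasDerivAt θ p z).continuousAt
    have hvol : ∀ (S : Set ℂ), volume {s : ℝ | a + s • v ∈ φ.symm ⁻¹' S} = volume {σ : ℝ | pt θ p σ ∈ S} := by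
      intro S
      rw [hpre S]
      exact measure_preimage_add volume σ0 _
    by_cases h0 : volume {s : ℝ | a + s • v ∈ G} = 0
    · have h1 : volume {σ : ℝ | pt θ p σ ∈ N0} = 0 := by rw [← hvol N0]; exact h0
      apply hmain θ p h1 t ht
      rw [← hvol E0, ← heq]
      apply measure_congr
      have h2 : volume {s : ℝ | a + s • v ∈ W} = 0 := measure_mono_null (fun s hs => hWG hs) h0
      have h3 : ({s : ℝ | a + s • v ∈ E1} \ {s : ℝ | a + s • v ∈ G} : Set ℝ) =ᵐ[volume] {s : ℝ | a + s • v ∈ E1} :=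
        diff_null_ae_eq_self h0
      have h4 : ({s : ℝ | a + s • v ∈ E1 \ G ∪ W} : Set ℝ) =
        ({s : ℝ | a + s • v ∈ E1} \ {s : ℝ | a + s • v ∈ G}) ∪ {s : ℝ | a + s • v ∈ W} := rfl
      rw [h4]
      exact ((union_ae_eq_left_of_ae_eq_empty (ae_eq_empty.2 h2)).trans h3).symm
    · exact hW a v hv h0 E1 hm

end FF
end Croft
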